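import Pool.Agent.Lib.MP_b525bf_ag_h52d.Final
import Pool.Agent.Lib.MP_b525bf_ag.StepKey

/-!
Destackification of multigraded families.
-/

namespace Pool.Agent.MP_b525bf_ag

open AddMonoidAlgebra Fam

variable {k K ι : Type} [Field k] [Field K] [Algebra k K] [AddCommGroup ι]

lemma finiteIndex_range_nsmul [Module.Finite ℤ ι] {w : ℕ} (hw : 0 < w) :
    ((nsmulAddMonoidHom w : ι →+ ι).range).FiniteIndex := by
  set S : Submodule ℤ ι := AddSubgroup.toIntSubmodule (nsmulAddMonoidHom w : ι →+ ι).range with hS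
  have h1 : Module.Finite ℤ (ι ⧸ S) := inferInstance
  have h2 : Module.IsTorsion ℤ (ι ⧸ S) := by
    intro x
    refine ⟨⟨(w : ℤ), mem_nonZeroDivisors_of_ne_zero (by exact_mod_cast hw.ne')⟩, ?_⟩
    obtain ⟨y, rfl⟩ := Submodule.Quotient.mk_surjective S x
    have h3 : (w : ℤ) • (Submodule.Quotient.mk y : ι ⧸ S) = 0 := by
      rw [← Submodule.Quotient.mk_smul, Submodule.Quotient.mk_eq_zero]
      exact ⟨y, by rw [nsmulAddMonoidHom_apply, natCast_zsmul]⟩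
    exact h3
  have h3 : Finite (ι ⧸ S) := Module.finite_of_fg_torsion (ι ⧸ S) h2
  have h4 : Finite (ι ⧸ (nsmulAddMonoidHom w : ι →+ ι).range) := h3
  exact AddSubgroup.finiteIndex_of_finite_quotient

/-- Destackification: a multigraded family which is smooth with finite stabilisers at the semistable
points can be replaced by a family graded by `ℤ` with trivial stabilisers, with the same piece of
degree zero. -/
theorem destack [Module.Free ℤ ι] [Module.Finite ℤ ι] (M : Fam k K ι) (θ : ι) (hfg : M.alg.FG)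
    (hsm : ∀ n : ℕ, 0 < n → ∀ (x : K) (hx : x ∈ M.s (n • θ)), x ≠ 0 →
      Algebra.FormallySmooth k (M.loc hx).alg)
    (hidx : ∃ w : ℕ, 0 < w ∧ ∀ (Q : Ideal M.alg) [Q.IsPrime],
      (∃ n : ℕ, 0 < n ∧ ∃ (x : K) (hx : x ∈ M.s (n • θ)), M.el hx ∉ Q) →
      ∀ d : ι, w • d ∈ M.grp Q)
    (hneg : ∀ n : ℕ, (1 : K) ∈ M.s (-(n • θ)))
    (hne : ∃ n : ℕ, 0 < n ∧ ∃ x ∈ M.s (n • θ), x ≠ 0)
    (hgen : ∀ d : ι, ∃ a, (∃ x ∈ M.s a, x ≠ 0) ∧ ∃ y ∈ M.s (a + d), y ≠ 0) :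
    ∃ M' : Fam k K ℤ, GoodC M' 1 ∧ M'.s 0 = M.s 0 := by
  obtain ⟨w, hw, hidx⟩ := hidx
  have hfi := finiteIndex_range_nsmul (ι := ι) hw
  have hbot : ∀ (a : ι) (x : K), x ≠ 0 → x ∉ (GP.bot M).I a := by
    intro a x hx h
    change x ∈ (⊥ : Submodule k K) at h
    rw [Submodule.mem_bot] at h
    exact hx h
  have hM : GoodI M θ ((nsmulAddMonoidHom w : ι →+ ι).range).index := by
    refine ⟨hfg, hsm, ?_, hneg, ?_, ?_⟩
    · intro P hP
      obtain ⟨Q, hQ, hQP⟩ := P.exists_ideal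
      have h1 : (∃ n : ℕ, 0 < n ∧ ∃ (x : K) (hx : x ∈ M.s (n • θ)), M.el hx ∉ Q) := by
        obtain ⟨n, hn, x, hx, hx'⟩ := hP
        exact ⟨n, hn, x, hx, fun h => hx' ((hQP _ x hx).1 h)⟩
      have h2 : ∀ a, a ∈ M.degs Q → a ∈ P.degs := by
        rintro a ⟨x, hx, hx'⟩
        exact ⟨x, hx, fun h => hx' ((hQP _ x hx).2 h)⟩
      have h3 : (nsmulAddMonoidHom w : ι →+ ι).range ≤ P.grp := by
        rintro _ ⟨d, rfl⟩
        obtain ⟨l', h4, h5⟩ := hidx Q h1 d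
        exact ⟨l', h2 _ h4, h2 _ h5⟩
      refine ⟨?_, AddSubgroup.index_antitone h3⟩
      intro h0
      have h4 := AddSubgroup.index_dvd_of_le h3
      rw [h0, zero_dvd_iff] at h4
      exact hfi.index_ne_zero h4
    · obtain ⟨n, hn, x, hx, hx0⟩ := hne
      exact ⟨n, hn, x, hx, hbot _ _ hx0⟩
    · rw [eq_top_iff]
      intro d _
      obtain ⟨a, ⟨x, hx, hx0⟩, y, hy, hy0⟩ := hgen d
      exact ⟨a, ⟨x, hx, hbot _ _ hx0⟩, by rw [add_comm]; exact ⟨y, hy, hbot _ _ hy0⟩⟩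
  exact GoodI.exists_goodC _ _ ι M θ hM le_rfl

end Pool.Agent.MP_b525bf_ag
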