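import Mathlib

/-!
Lattice computations for the destackification.
-/

namespace Pool.Agent.MP_b525bf_ag

variable {ι : Type} [AddCommGroup ι]

/-- A proper subgroup of a free abelian group of finite rank is killed by a primitive functional
modulo some `l > 1`. -/
lemma exists_functional [Module.Free ℤ ι] [Module.Finite ℤ ι] (H : AddSubgroup ι) (hH : H ≠ ⊤) :
    ∃ (c : ι →+ ℤ) (l : ℕ), Function.Surjective c ∧ 1 < l ∧ ∀ h ∈ H, (l : ℤ) ∣ c h := by
  classical
  let b := Module.Free.chooseBasis ℤ ι
  obtain ⟨n, S⟩ := Submodule.smithNormalForm b (AddSubgroup.toIntSubmodule H)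
  have hsurj : ∀ i, Function.Surjective (S.bM.coord i) := by
    intro i m
    refine ⟨m • S.bM i, ?_⟩
    simp
  by_cases hf : Function.Surjective S.f
  · obtain ⟨i, hi⟩ : ∃ i, ¬ IsUnit (S.a i) := by
      by_contra hcon
      push Not at hcon
      apply hH
      rw [eq_top_iff]
      intro x _
      have h1 : ∀ j, S.bM j ∈ AddSubgroup.toIntSubmodule H := by
        intro j
        obtain ⟨i, rfl⟩ := hf j
        have h2 := S.snf i
        obtain ⟨u, hu⟩ := hcon i
        have h3 : S.bM (S.f i) = (↑u⁻¹ : ℤ) • (S.bN i : ι) := by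
          rw [h2, ← hu, smul_smul, Units.inv_mul, one_smul]
        rw [h3]
        exact Submodule.smul_mem _ _ (S.bN i).2
      have h2 : x ∈ AddSubgroup.toIntSubmodule H := by
        rw [← S.bM.sum_repr x]
        exact Submodule.sum_mem _ fun j _ => Submodule.smul_mem _ _ (h1 j)
      exact h2
    have hne : S.a i ≠ 0 := by
      intro h0
      have h1 := S.snf i
      rw [h0, zero_smul] at h1
      exact S.bN.ne_zero i (Subtype.ext h1)
    refine ⟨(S.bM.coord (S.f i)).toAddMonoidHom, (S.a i).natAbs, hsurj _, ?_, ?_⟩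
    · have h1 : (S.a i).natAbs ≠ 0 := by rwa [Ne, Int.natAbs_eq_zero]
      have h2 : (S.a i).natAbs ≠ 1 := fun h => hi (Int.isUnit_iff_natAbs_eq.2 h)
      omega
    · intro h hh
      rw [Int.natAbs_dvd]
      have h1 : (⟨h, hh⟩ : AddSubgroup.toIntSubmodule H) =
          ∑ j, S.bN.repr ⟨h, hh⟩ j • S.bN j := (S.bN.sum_repr _).symm
      have h2 : h = ∑ j, S.bN.repr ⟨h, hh⟩ j • (S.a j • S.bM (S.f j)) := by
        have := congrArg Subtype.val h1
        simp only [AddSubmonoidClass.coe_finsetSum, Submodule.coe_smul_of_tower, S.snf] at this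
        exact this
      change S.a i ∣ S.bM.coord (S.f i) h
      rw [h2, map_sum, Finset.sum_eq_single i]
      · rw [map_smul, map_smul, Module.Basis.coord_apply, Module.Basis.repr_self,
          Finsupp.single_eq_same, smul_eq_mul, smul_eq_mul, mul_one]
        exact Dvd.intro_left _ rfl
      · intro j _ hj
        rw [map_smul, map_smul, Module.Basis.coord_apply, Module.Basis.repr_self,
          Finsupp.single_eq_of_ne, smul_zero, smul_zero]
        intro h
        exact hj (S.f.injective h).symm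
      · intro h; exact absurd (Finset.mem_univ _) h
  · have hf' : ∃ j, ∀ i, S.f i ≠ j := by
      by_contra hcon
      push Not at hcon
      exact hf hcon
    obtain ⟨j, hj⟩ := hf'
    refine ⟨(S.bM.coord j).toAddMonoidHom, 2, hsurj _, by norm_num, ?_⟩
    intro h hh
    have h1 : (⟨h, hh⟩ : AddSubgroup.toIntSubmodule H) =
        ∑ j, S.bN.repr ⟨h, hh⟩ j • S.bN j := (S.bN.sum_repr _).symm
    have h2 : h = ∑ j, S.bN.repr ⟨h, hh⟩ j • (S.a j • S.bM (S.f j)) := by
      have := congrArg Subtype.val h1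
      simp only [AddSubmonoidClass.coe_finsetSum, Submodule.coe_smul_of_tower, S.snf] at this
      exact this
    change (2 : ℤ) ∣ S.bM.coord j h
    rw [h2, map_sum, Finset.sum_eq_zero]
    · exact dvd_zero _
    · intro i _
      rw [map_smul, map_smul, Module.Basis.coord_apply, Module.Basis.repr_self,
        Finsupp.single_eq_of_ne, smul_zero, smul_zero]
      intro h
      exact hj i h.symm

/-- The index drops. -/
lemma index_bound (c : ι →+ ℤ) (hc : Function.Surjective c) {l : ℕ} (hl : 0 < l)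
    (H : AddSubgroup ι) (hH : ∀ h ∈ H, (l : ℤ) ∣ c h) (hH0 : H.index ≠ 0)
    (G : AddSubgroup (ι × ℤ)) (hG : ∀ h ∈ H, (h, c h / l) ∈ G) {d : ι} {m : ℤ}
    (hd : (d, m) ∈ G) {b : ℕ} (hb0 : 0 < b) (hbl : b < l) (hb : c d - l * m = b) :
    G.index ≠ 0 ∧ G.index < H.index := by
  have hl' : (l : ℤ) ≠ 0 := by exact_mod_cast hl.ne'
  set ψ : ι × ℤ →+ ℤ := c.coprod (AddMonoidHom.mulLeft (-(l : ℤ))) with hψ
  have hψa : ∀ a n, ψ (a, n) = c a - l * n := by
    intro a n
    change c a + -(l : ℤ) * n = _
    ring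
  have hψs : Function.Surjective ψ := by
    intro n
    obtain ⟨a, ha⟩ := hc n
    exact ⟨(a, 0), by rw [hψa, ha]; ring⟩
  set L : AddSubgroup ι := (AddSubgroup.zmultiples (l : ℤ)).comap c with hL
  have hmemL : ∀ a, a ∈ L ↔ (l : ℤ) ∣ c a := by
    intro a
    rw [hL, AddSubgroup.mem_comap, Int.mem_zmultiples_iff]
  have hHL : H ≤ L := fun h hh => (hmemL h).2 (hH h hh)
  have hLidx : L.index = l := by
    rw [hL, AddSubgroup.index_comap_of_surjective _ hc, Int.index_zmultiples, Int.natAbs_natCast]
  have h1 : H.relIndex L * l = H.index := by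
    rw [← hLidx]; exact AddSubgroup.relIndex_mul_index hHL
  let χ : L →+ ι × ℤ :=
    { toFun := fun a => (a, c a / l)
      map_zero' := by simp
      map_add' := by
        rintro ⟨a, ha⟩ ⟨b, hb⟩
        rw [Prod.ext_iff]
        constructor
        · rfl
        · change c (a + b) / l = c a / l + c b / l
          rw [map_add, Int.add_ediv_of_dvd_left ((hmemL a).1 ha)] }
  have hχ : χ.range = ψ.ker := by
    ext ⟨a, n⟩
    rw [AddMonoidHom.mem_range, AddMonoidHom.mem_ker, hψa]
    constructor
    · rintro ⟨⟨a', ha'⟩, h⟩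
      have h2 : a' = a := (Prod.ext_iff.1 h).1
      have h3 : c a' / l = n := (Prod.ext_iff.1 h).2
      rw [← h2, ← h3, Int.mul_ediv_cancel' ((hmemL a').1 ha'), sub_self]
    · intro h
      have h2 : c a = l * n := by linarith
      refine ⟨⟨a, (hmemL a).2 ⟨n, h2⟩⟩, ?_⟩
      rw [Prod.ext_iff]
      constructor
      · rfl
      · change c a / l = n
        rw [h2, Int.mul_ediv_cancel_left _ hl']
  have h2 : G.relIndex ψ.ker ∣ H.relIndex L := by
    rw [← hχ, ← AddSubgroup.index_comap]
    refine AddSubgroup.index_dvd_of_le ?_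
    intro a ha
    exact hG _ (AddSubgroup.mem_addSubgroupOf.1 ha)
  have h3 : (G ⊔ ψ.ker).index ∣ b := by
    have h4 := AddSubgroup.index_map G ψ
    rw [AddMonoidHom.range_eq_top.2 hψs, AddSubgroup.index_top, mul_one] at h4
    rw [← h4]
    have h5 : AddSubgroup.zmultiples (b : ℤ) ≤ G.map ψ := by
      rw [AddSubgroup.zmultiples_le]
      exact ⟨(d, m), hd, by rw [hψa, hb]⟩
    have h6 := AddSubgroup.index_dvd_of_le h5
    rwa [Int.index_zmultiples, Int.natAbs_natCast] at h6
  have h4 : G.index = G.relIndex ψ.ker * (G ⊔ ψ.ker).index := by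
    rw [← AddSubgroup.relIndex_sup_left ψ.ker G]
    exact (AddSubgroup.relIndex_mul_index le_sup_left).symm
  have h5 : G.index ∣ H.relIndex L * b := by rw [h4]; exact mul_dvd_mul h2 h3
  have h6 : 0 < H.relIndex L := by
    rcases Nat.eq_zero_or_pos (H.relIndex L) with h | h
    · rw [h, zero_mul] at h1; exact absurd h1.symm hH0
    · exact h
  have h7 : 0 < H.relIndex L * b := by positivity
  constructor
  · intro h0
    rw [h0, zero_dvd_iff] at h5
    omega
  · calc G.index ≤ H.relIndex L * b := Nat.le_of_dvd h7 h5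
      _ < H.relIndex L * l := by gcongr
      _ = H.index := h1

end Pool.Agent.MP_b525bf_ag
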