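import Pool.Agent.Lib.MP_b525bf_ag_h52d.Step
import Pool.Agent.Lib.MP_b525bf_ag_h52d.Lattice

/-!
One step of the destackification of multigraded families: the main theorem.
-/

namespace Pool.Agent.MP_b525bf_ag

open AddMonoidAlgebra Fam

variable {k K ι : Type} [Field k] [Field K] [Algebra k K] [AddCommGroup ι]

/-- The groups of maximal index which occur at semistable graded primes. -/
def occ (M : Fam k K ι) (θ : ι) (w : ℕ) : Set (AddSubgroup ι) :=
  {H | H.index = w ∧ ∃ P : GP M, P.Semi θ ∧ P.grp = H}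

lemma occ_finite {M : Fam k K ι} (hfg : M.alg.FG) (θ : ι) (w : ℕ) : (occ M θ w).Finite :=
  (GP.finite_grp hfg).subset fun _ h => by
    obtain ⟨-, P, -, h⟩ := h
    exact ⟨P, h⟩

lemma Fam.loc_congr' (M : Fam k K ι) {a b : ι} {x y : K}
    (hx : x ∈ M.s a) (hy : y ∈ M.s b) (hab : a = b) (hxy : x = y) : M.loc hx = M.loc hy := by
  subst hab hxy; rfl

section contr

variable {M : Fam k K ι} {c : ι →+ ℤ} {l : ℕ}

lemma mem_contrA_degs (hl : 0 < l) (P' : GP (M.wr c l)) (hs : (1 : K) ∉ P'.I (0, 1)) {a : ι}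
    {m : ℤ} (h : (a, m) ∈ P'.degs) : a ∈ (contrA hl P' hs).degs := by
  obtain ⟨x, hx, hx'⟩ := h
  have hxM := M.wr_le c l hx
  refine ⟨x, hxM, ?_⟩
  rintro ⟨-, h⟩
  rcases le_total (c a / l) m with hm | hm
  · apply hx'
    have h2 := P'.mul_left' h ((M.wr c l).pow' (M.wr_one c l) (m - c a / l).toNat)
    rw [one_pow, mul_one] at h2
    convert h2 using 2
    rw [Prod.ext_iff]
    constructor
    · simp
    · change m = c a / l + (m - c a / l).toNat • (1 : ℤ)
      rw [nsmul_eq_mul, Int.toNat_of_nonneg (by omega)]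
      ring
  · have h2 := P'.mul_notMem hx hx' ((M.wr c l).pow' (M.wr_one c l) (c a / l - m).toNat)
      (P'.pow_notMem (M.wr_one c l) hs _)
    rw [one_pow, mul_one] at h2
    apply h2
    have e1 : ((a, m) : ι × ℤ) + (c a / l - m).toNat • ((0, 1) : ι × ℤ) = (a, c a / l) := by
      rw [Prod.ext_iff]
      constructor
      · simp
      · change m + (c a / l - m).toNat • (1 : ℤ) = c a / l
        rw [nsmul_eq_mul, Int.toNat_of_nonneg (by omega)]
        ring
    rw [e1]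
    exact h

lemma contrA_degs_mem (hl : 0 < l) (P' : GP (M.wr c l)) (hs : (1 : K) ∉ P'.I (0, 1)) {a : ι}
    (h : a ∈ (contrA hl P' hs).degs) : (a, c a / l) ∈ P'.degs := by
  obtain ⟨x, hx, hx'⟩ := h
  exact ⟨x, M.wr_gen c l hx, fun h => hx' ⟨hx, h⟩⟩

lemma contrA_grp (hl : 0 < l) (P' : GP (M.wr c l)) (hs : (1 : K) ∉ P'.I (0, 1)) :
    P'.grp = (contrA hl P' hs).grp.comap (AddMonoidHom.fst ι ℤ) := by
  apply le_antisymm
  · refine P'.grp_le ?_
    rintro ⟨a, m⟩ h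
    exact (contrA hl P' hs).degs_le_grp (mem_contrA_degs hl P' hs h)
  · rintro ⟨a, m⟩ h
    have h01 : ((0, 1) : ι × ℤ) ∈ P'.grp := P'.degs_le_grp ⟨1, M.wr_one c l, hs⟩
    have h0 : ∀ a ∈ (contrA hl P' hs).degs, ((a, 0) : ι × ℤ) ∈ P'.grp := by
      intro a ha
      have h1 := P'.degs_le_grp (contrA_degs_mem hl P' hs ha)
      have h2 := sub_mem h1 (zsmul_mem h01 (c a / l))
      convert h2 using 1
      rw [Prod.ext_iff]
      constructor
      · simp
      · change 0 = c a / l - (c a / l) • (1 : ℤ)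
        simp
    obtain ⟨a', h1, h2⟩ := h
    have h3 := add_mem (sub_mem (h0 _ h2) (h0 _ h1)) (zsmul_mem h01 m)
    convert h3 using 1
    rw [Prod.ext_iff]
    constructor
    · simp
    · change m = 0 - 0 + m • (1 : ℤ)
      simp

lemma contrB_dvd (hl : 0 < l) (P' : GP (M.wr c l)) (hs : (1 : K) ∈ P'.I (0, 1)) {a : ι}
    (h : a ∈ (contrB hl P' hs).degs) : (l : ℤ) ∣ c a ∧ (a, c a / l) ∈ P'.degs := by
  obtain ⟨x, hx, hx'⟩ := h
  by_cases hd : (l : ℤ) ∣ c a
  · exact ⟨hd, x, M.wr_gen c l hx, fun h => hx' ⟨hx, fun _ => h⟩⟩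
  · exact absurd ⟨hx, fun h => absurd h hd⟩ hx'

lemma contrB_grp (hl : 0 < l) (P' : GP (M.wr c l)) (hs : (1 : K) ∈ P'.I (0, 1)) {a : ι}
    (h : a ∈ (contrB hl P' hs).grp) : (l : ℤ) ∣ c a ∧ (a, c a / l) ∈ P'.grp := by
  obtain ⟨a', h1, h2⟩ := h
  obtain ⟨h3, h4⟩ := contrB_dvd hl P' hs h1
  obtain ⟨h5, h6⟩ := contrB_dvd hl P' hs h2
  have h7 : (l : ℤ) ∣ c a := by
    have := dvd_sub h5 h3
    rwa [map_add, add_sub_cancel_right] at this
  refine ⟨h7, ?_⟩
  have h8 := sub_mem (P'.degs_le_grp h6) (P'.degs_le_grp h4)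
  convert h8 using 1
  rw [Prod.ext_iff]
  constructor
  · simp
  · change c a / l = c (a + a') / l - c a' / l
    rw [map_add, Int.add_ediv_of_dvd_left h7]
    ring

end contr

section step

variable {M : Fam k K ι} {θ : ι} {w : ℕ}

lemma GoodI.exists_ne (hM : GoodI M θ w) (t : ℤ) : ∃ y ∈ M.s (t • θ), y ≠ 0 := by
  obtain ⟨n, hn, y, hy, hy'⟩ := hM.nontriv
  have hy0 : y ≠ 0 := (GP.bot M).ne_zero_of_notMem hy'
  rcases le_total 0 t with ht | ht
  · obtain ⟨m, rfl⟩ := Int.eq_ofNat_of_zero_le ht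
    refine ⟨y ^ m, ?_, pow_ne_zero _ hy0⟩
    have h1 := M.mul' (M.pow' hy m) (hM.neg (m * (n - 1)))
    rw [mul_one] at h1
    convert h1 using 2
    obtain ⟨n', rfl⟩ := Nat.exists_eq_succ_of_ne_zero hn.ne'
    rw [Nat.succ_sub_one, smul_smul, Nat.mul_succ, add_nsmul, natCast_zsmul]
    abel
  · obtain ⟨m, rfl⟩ := Int.exists_eq_neg_ofNat ht
    refine ⟨1, ?_, one_ne_zero⟩
    have := hM.neg m
    rwa [neg_smul, natCast_zsmul]

/-- The main step. -/
theorem GoodI.step [IsDomain (AddMonoidAlgebra K ι)] (hM : GoodI M θ w) {H₀ : AddSubgroup ι}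
    (hH₀ : H₀ ∈ occ M θ w) {c : ι →+ ℤ} (hc : Function.Surjective c) {l : ℕ} (hl1 : 1 < l)
    (hcH : ∀ h ∈ H₀, (l : ℤ) ∣ c h) :
    ∃ θ' : ι × ℤ, GoodI (M.wr c l) θ' w ∧
      (occ (M.wr c l) θ' w).ncard < (occ M θ w).ncard ∧ (M.wr c l).s 0 = M.s 0 := by
  classical
  have hl : 0 < l := by omega
  have hl' : (0 : ℤ) < l := by exact_mod_cast hl
  obtain ⟨r, d, x, hx, hgen⟩ := M.exists_gens hM.fg
  have hEgen := M.wr_alg_eq c hl hx hgen
  have hwt : ∀ i, wwt c l (d i, c (d i) / l) = c (d i) % l := by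
    intro i
    rw [wwt_apply]
    have := Int.emod_add_mul_ediv (c (d i)) l
    linarith
  obtain ⟨ρ₀, hρ₀⟩ := GP.exists_semi (k := k) (K := K) (fun i => ((d i, c (d i) / l) : ι × ℤ)) x
    (AddMonoidHom.fst ι ℤ) (wwt c l) (0, 1) rfl (by rw [wwt_apply, map_zero]; linarith)
    (fun i => by rw [hwt]; exact Int.emod_nonneg _ hl'.ne') (l • θ) l hl
  set ρ : ℕ := ρ₀ + 1 with hρ
  set θ' : ι × ℤ := (ρ • l • θ, ρ * c θ - 1) with hθ'
  have hθ1 : AddMonoidHom.fst ι ℤ θ' = ρ • l • θ := rfl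
  have hθ2 : wwt c l θ' = l := by
    rw [hθ', wwt_apply, map_nsmul, map_nsmul, nsmul_eq_mul, nsmul_eq_mul]
    ring
  -- semistable graded primes of the blow-up
  have keyA : ∀ (P' : GP (M.wr c l)) (hs : (1 : K) ∉ P'.I (0, 1)), P'.Semi θ' →
      (contrA hl P' hs).Semi θ ∧ ∃ i, 0 < c (d i) % l ∧ x i ∉ P'.I (d i, c (d i) / l) := by
    intro P' hs hsemi
    obtain ⟨h1, i, h2, h3⟩ := hρ₀ ρ (by omega) M (M.wr c l) (fun i => M.wr_gen c l (hx i))
      (M.wr_one c l) hx hEgen P' (contrA hl P' hs) (fun _ i hi h => hi h.2)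
      (fun i _ hi h => hi h.2) θ' hθ1 hθ2 hsemi
    refine ⟨?_, i, ?_, h3⟩
    · obtain ⟨n, hn, h⟩ := h1
      refine ⟨n * l, by positivity, ?_⟩
      rwa [mul_nsmul']
    · rwa [hwt] at h2
  have keyB : ∀ (P' : GP (M.wr c l)) (hs : (1 : K) ∈ P'.I (0, 1)), P'.Semi θ' →
      (contrB hl P' hs).Semi θ ∧ ∃ i, 0 < c (d i) % l ∧ x i ∉ P'.I (d i, c (d i) / l) := by
    intro P' hs hsemi
    obtain ⟨h1, i, h2, h3⟩ := hρ₀ ρ (by omega) M (M.wr c l) (fun i => M.wr_gen c l (hx i))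
      (M.wr_one c l) hx hEgen P' (contrB hl P' hs) (fun h => absurd hs h)
      (fun i h0 hi h => hi (h.2 (Int.dvd_of_emod_eq_zero ((hwt i).symm.trans h0))))
      θ' hθ1 hθ2 hsemi
    refine ⟨?_, i, ?_, h3⟩
    · obtain ⟨n, hn, h⟩ := h1
      refine ⟨n * l, by positivity, ?_⟩
      rwa [mul_nsmul']
    · rwa [hwt] at h2
  -- homogeneous elements of weight zero outside a semistable graded prime
  have keyz : ∀ (P' : GP (M.wr c l)), P'.Semi θ' → ∃ n : ℕ, 0 < n ∧ ∃ z ∈ M.s ((l * n) • θ),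
      z ∉ P'.I ((l * n) • θ, c ((l * n) • θ) / l) := by
    intro P' hsemi
    have hdvd : ∀ n : ℕ, (l : ℤ) ∣ c ((l * n) • θ) := by
      intro n
      rw [map_nsmul, nsmul_eq_mul, Nat.cast_mul, mul_assoc]
      exact Dvd.intro _ rfl
    by_cases hs : (1 : K) ∈ P'.I (0, 1)
    · obtain ⟨⟨n, hn, y, hy, hy'⟩, -⟩ := keyB P' hs hsemi
      have h1 := M.pow' hy l
      have h2 := (contrB hl P' hs).pow_notMem hy hy' l
      rw [← mul_nsmul'] at h1 h2
      exact ⟨n, hn, y ^ l, h1, fun h => h2 ⟨h1, fun _ => h⟩⟩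
    · obtain ⟨⟨n, hn, y, hy, hy'⟩, -⟩ := keyA P' hs hsemi
      have h1 := M.pow' hy l
      have h2 := (contrA hl P' hs).pow_notMem hy hy' l
      rw [← mul_nsmul'] at h1 h2
      exact ⟨n, hn, y ^ l, h1, fun h => h2 ⟨h1, h⟩⟩
  -- the index at graded primes on the exceptional divisor
  have idxB : ∀ (P' : GP (M.wr c l)) (_ : (1 : K) ∈ P'.I (0, 1)), P'.Semi θ' →
      P'.grp.index ≠ 0 ∧ P'.grp.index < w := by
    intro P' hs hsemi
    obtain ⟨h1, i, h2, h3⟩ := keyB P' hs hsemi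
    obtain ⟨h4, h5⟩ := hM.idx _ h1
    have h6 : (((c (d i) % l).toNat : ℕ) : ℤ) = c (d i) % l := Int.toNat_of_nonneg h2.le
    obtain ⟨h7, h8⟩ := index_bound c hc hl (contrB hl P' hs).grp
      (fun h hh => (contrB_grp hl P' hs hh).1) h4 P'.grp
      (fun h hh => (contrB_grp hl P' hs hh).2) (d := d i) (m := c (d i) / l)
      (P'.degs_le_grp ⟨x i, M.wr_gen c l (hx i), h3⟩) (b := (c (d i) % l).toNat) (by omega)
      (by have := Int.emod_lt_of_pos (c (d i)) hl'; omega)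
      (by rw [h6]; have := Int.emod_add_mul_ediv (c (d i)) l; linarith)
    exact ⟨h7, by omega⟩
  have idxA : ∀ (P' : GP (M.wr c l)) (hs : (1 : K) ∉ P'.I (0, 1)),
      P'.grp.index = (contrA hl P' hs).grp.index := by
    intro P' hs
    rw [contrA_grp hl P' hs]
    exact AddSubgroup.index_comap_of_surjective _ (fun a => ⟨(a, 0), rfl⟩)
  refine ⟨θ', ⟨M.wr_fg c hl hM.fg, ?_, ?_, ?_, ?_, ?_⟩, ?_, ?_⟩
  · -- smoothness
    intro n hn g hg hg0
    refine Fam.formallySmooth_loc_of_cover _ (M.wr_fg c hl hM.fg) hg hg0 fun q hq hgq => ?_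
    have hsemi : (GP.ofIdeal (M.wr c l) q).Semi θ' :=
      ⟨n, hn, g, hg, fun h => hgq ((GP.mem_ofIdeal hg).1 h)⟩
    obtain ⟨m, hm, z, hz, hz'⟩ := keyz _ hsemi
    have hzE := M.wr_gen c l hz
    have hz0 : z ≠ 0 := GP.ne_zero_of_notMem _ hz'
    refine ⟨_, z, hzE, fun h => hz' ((GP.mem_ofIdeal hzE).2 h), ?_⟩
    have h1 : Algebra.FormallySmooth k (M.loc hz).alg := hM.smooth _ (by positivity) z hz hz0
    have h2 : (M.loc hz).alg.FG :=
      (Subalgebra.fg_iff_finiteType _).2 (M.finiteType_loc hM.fg hz hz0)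
    have h3 := (M.loc hz).wr_smooth c hl h2 h1
    have hdvd : (l : ℤ) ∣ c ((l * m) • θ) := by
      rw [map_nsmul, nsmul_eq_mul, Nat.cast_mul, mul_assoc]
      exact Dvd.intro _ rfl
    rw [M.wr_loc c hl hdvd hz hz0] at h3
    have h4 := (M.wr c l).formallySmooth_loc_mul hzE hg hg0 h3
    rwa [(M.wr c l).loc_congr' ((M.wr c l).mul' hzE hg) ((M.wr c l).mul' hg hzE)
      (add_comm _ _) (mul_comm _ _)] at h4
  · -- the index
    intro P' hsemi
    by_cases hs : (1 : K) ∈ P'.I (0, 1)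
    · obtain ⟨h1, h2⟩ := idxB P' hs hsemi
      exact ⟨h1, h2.le⟩
    · rw [idxA P' hs]
      exact hM.idx _ (keyA P' hs hsemi).1
  · -- negative multiples of `θ'`
    intro n
    have h1 := hM.neg (n * ρ * l)
    have h2 : -(n • θ') = (-((n * ρ * l) • θ), -(n * (ρ * c θ - 1))) := by
      rw [hθ', Prod.ext_iff]
      constructor
      · change -(n • ρ • l • θ) = _
        rw [smul_smul, smul_smul, mul_assoc]
      · change -(n • (ρ * c θ - 1)) = _
        rw [nsmul_eq_mul]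
    rw [h2]
    refine M.wr_of_nonpos c hl ?_ h1
    rw [map_neg, map_nsmul, nsmul_eq_mul]
    push_cast
    have h3 : (0 : ℤ) ≤ l * n := by positivity
    nlinarith
  · -- nontriviality
    obtain ⟨a₀, ha₀⟩ := hc 1
    have hmem : a₀ ∈ (GP.bot M).grp := by rw [hM.gen]; trivial
    obtain ⟨γ', hγ1, hγ2⟩ := hmem
    obtain ⟨γ, hγ, hγc⟩ : ∃ γ ∈ (GP.bot M).degs, ¬ (l : ℤ) ∣ c γ := by
      by_contra hcon
      push Not at hcon
      have h1 := dvd_sub (hcon _ hγ2) (hcon _ hγ1)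
      rw [map_add, add_sub_cancel_right, ha₀] at h1
      have := Int.le_of_dvd one_pos h1
      omega
    obtain ⟨γ'', hγ'', n₁, hn₁, hsum⟩ :=
      GP.exists_compl θ (fun P hP => (hM.idx P hP).1) (GP.bot M) hM.nontriv hγ
    obtain ⟨y0, hy0, hy0'⟩ := hγ
    obtain ⟨y1, hy1, hy1'⟩ := hγ''
    have hy00 := (GP.bot M).ne_zero_of_notMem hy0'
    have hy10 := (GP.bot M).ne_zero_of_notMem hy1'
    have hy := (M.wr c l).mul' (M.wr_gen c l hy0) (M.wr_gen c l hy1)
    have hyl := (M.wr c l).pow' hy l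
    set e1 : ι × ℤ := (γ, c γ / l) + (γ'', c γ'' / l) with he1
    obtain ⟨y3, hy3, hy30⟩ := hM.exists_ne ((ρ * l : ℕ) - (l * n₁ : ℕ) : ℤ)
    have h3 : y3 ∈ (M.wr c l).s (((ρ * l : ℕ) - (l * n₁ : ℕ) : ℤ) • θ,
        ρ * c θ - 1 - l * (c γ / l + c γ'' / l)) := by
      refine M.wr_of_nonpos c hl ?_ hy3
      rw [map_zsmul, smul_eq_mul]
      have h4 : c γ + c γ'' = n₁ * c θ := by
        have := congrArg c hsum
        rwa [map_add, map_nsmul, nsmul_eq_mul] at this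
      have h5 := Int.emod_add_mul_ediv (c γ) l
      have h6 := Int.emod_add_mul_ediv (c γ'') l
      have h7 : 0 < c γ % l := by
        have h8 := Int.emod_nonneg (c γ) hl'.ne'
        have h9 : c γ % l ≠ 0 := fun h => hγc (Int.dvd_of_emod_eq_zero h)
        omega
      have h8 := Int.emod_nonneg (c γ'') hl'.ne'
      have h10 : (l : ℤ) * (c γ / l + c γ'' / l) ≤ n₁ * c θ - 1 := by
        rw [mul_add]; linarith
      have h11 : (l : ℤ) * (l * (c γ / l + c γ'' / l)) ≤ l * (n₁ * c θ - 1) :=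
        mul_le_mul_of_nonneg_left h10 hl'.le
      push_cast
      nlinarith
    have hprod := (M.wr c l).mul' hyl h3
    have hdeg : l • e1 + (((ρ * l : ℕ) - (l * n₁ : ℕ) : ℤ) • θ,
        ρ * c θ - 1 - l * (c γ / l + c γ'' / l)) = 1 • θ' := by
      rw [one_smul, hθ', he1, Prod.ext_iff]
      constructor
      · change l • (γ + γ'') + ((ρ * l : ℕ) - (l * n₁ : ℕ) : ℤ) • θ = ρ • l • θ
        rw [hsum, sub_smul, natCast_zsmul, natCast_zsmul, smul_smul, smul_smul]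
        abel
      · change l • (c γ / l + c γ'' / l) + (ρ * c θ - 1 - l * (c γ / l + c γ'' / l)) =
          ρ * c θ - 1
        rw [nsmul_eq_mul]
        ring
    rw [hdeg] at hprod
    refine ⟨1, one_pos, _, hprod, ?_⟩
    change _ ∉ (⊥ : Submodule k K)
    rw [Submodule.mem_bot]
    exact mul_ne_zero (pow_ne_zero _ (mul_ne_zero hy00 hy10)) hy30
  · -- generation
    have hs : (1 : K) ∉ (GP.bot (M.wr c l)).I (0, 1) := by
      change (1 : K) ∉ (⊥ : Submodule k K)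
      rw [Submodule.mem_bot]
      exact one_ne_zero
    rw [contrA_grp hl (GP.bot (M.wr c l)) hs, eq_top_iff]
    have h1 : (GP.bot M).grp ≤ (contrA hl (GP.bot (M.wr c l)) hs).grp := by
      refine GP.grp_le _ fun a ha => GP.degs_le_grp _ ?_
      obtain ⟨y, hy, hy'⟩ := ha
      exact ⟨y, hy, fun h => hy' h.2⟩
    rw [hM.gen] at h1
    intro a _
    exact h1 trivial
  · -- counting
    have hmaps : ∀ H' ∈ occ (M.wr c l) θ' w,
        H'.comap (AddMonoidHom.inl ι ℤ) ∈ occ M θ w \ {H₀} ∧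
        H' = (H'.comap (AddMonoidHom.inl ι ℤ)).comap (AddMonoidHom.fst ι ℤ) := by
      rintro H' ⟨hidx, P', hsemi, rfl⟩
      have hs : (1 : K) ∉ P'.I (0, 1) := by
        intro hs
        have := (idxB P' hs hsemi).2
        omega
      obtain ⟨h1, i, h2, h3⟩ := keyA P' hs hsemi
      have h4 : P'.grp.comap (AddMonoidHom.inl ι ℤ) = (contrA hl P' hs).grp := by
        rw [contrA_grp hl P' hs]
        ext a
        rfl
      rw [h4]
      refine ⟨⟨⟨by rw [← idxA P' hs]; exact hidx, _, h1, rfl⟩, ?_⟩, contrA_grp hl P' hs⟩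
      intro h5
      rw [Set.mem_singleton_iff] at h5
      have h6 : d i ∈ H₀ := by
        rw [← h5]
        exact GP.degs_le_grp _ ⟨x i, hx i, fun h => h3 h.2⟩
      have h7 := Int.emod_eq_zero_of_dvd (hcH _ h6)
      omega
    calc (occ (M.wr c l) θ' w).ncard ≤ (occ M θ w \ {H₀}).ncard := by
          refine Set.ncard_le_ncard_of_injOn (fun H' => H'.comap (AddMonoidHom.inl ι ℤ))
            (fun H' hH' => (hmaps H' hH').1) ?_ ((occ_finite hM.fg θ w).subset Set.sdiff_subset)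
          intro H1 h1 H2 h2 h12
          rw [(hmaps H1 h1).2, (hmaps H2 h2).2]
          exact congrArg _ h12
      _ < (occ M θ w).ncard :=
          Set.ncard_sdiff_singleton_lt_of_mem hH₀ (occ_finite hM.fg θ w)
  · -- degree zero
    ext y
    constructor
    · intro hy
      exact M.wr_le c l (m := 0) hy
    · intro hy
      have := M.wr_gen c l hy
      rw [map_zero, Int.zero_ediv] at this
      exact this

end step

end Pool.Agent.MP_b525bf_ag
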