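import Pool.Agent.Lib.MP_b525bf_ag_h52d.Sharp
import Pool.Agent.Lib.MP_b525bf_ag_helper30.Laurent

/-!
Restriction of the grading along an arbitrary homomorphism, in the presence of homogeneous units of
all degrees.
-/

namespace Pool.Agent.MP_b525bf_ag

open AddMonoidAlgebra Fam

variable {k K ι : Type} [Field k] [Field K] [Algebra k K] [AddCommGroup ι]

lemma isDomain_of_free (K ι : Type) [Field K] [AddCommGroup ι] [Module.Free ℤ ι]
    [Module.Finite ℤ ι] : IsDomain (AddMonoidAlgebra K ι) := by
  let b := Module.Free.chooseBasis ℤ ι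
  have h : UniqueSums ι := by
    exact UniqueSums.of_injective_addHom
      ({ toFun := b.equivFun, map_add' := map_add b.equivFun } :
        ι →ₙ+ (Module.Free.ChooseBasisIndex ℤ ι → ℤ)) b.equivFun.injective inferInstance
  infer_instance

/-- The family extended by an inverted variable. -/
theorem Fam.smooth_comap_fst [IsDomain (AddMonoidAlgebra K ι)] (N : Fam k K ι)
    (hsm : Algebra.FormallySmooth k N.alg) :
    Algebra.FormallySmooth k (N.comap (AddMonoidHom.fst ι ℤ)).alg := by
  set N' := N.comap (AddMonoidHom.fst ι ℤ) with hN'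
  set Φ := sharpHom (K := K) k (AddMonoidHom.fst ι ℤ) (AddMonoidHom.snd ι ℤ) with hΦ
  have hinj : ∀ a b : ι × ℤ, AddMonoidHom.fst ι ℤ a = AddMonoidHom.fst ι ℤ b →
      AddMonoidHom.snd ι ℤ a = AddMonoidHom.snd ι ℤ b → a = b := fun a b h h' => Prod.ext h h'
  -- the common piece
  let j : AddMonoidAlgebra K ι →ₐ[k] FractionRing (AddMonoidAlgebra K ι) :=
    (Algebra.ofId (AddMonoidAlgebra K ι) (FractionRing (AddMonoidAlgebra K ι))).restrictScalars k
  have hj : Function.Injective j := IsFractionRing.injective (AddMonoidAlgebra K ι) _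
  let B : Subalgebra k (FractionRing (AddMonoidAlgebra K ι)) := N.alg.map j
  have hB : Algebra.FormallySmooth k B :=
    Algebra.FormallySmooth.of_equiv (N.alg.equivMapOfInjective j hj)
  have hcoeff : ∀ F : N'.alg, ∀ m : ℤ, (Φ (F : AddMonoidAlgebra K (ι × ℤ))).coeff m ∈ B := by
    intro F
    refine alg_induction N' (p := fun F => ∀ m : ℤ,
      (Φ (F : AddMonoidAlgebra K (ι × ℤ))).coeff m ∈ B) ?_ ?_ ?_ F
    · intro m
      rw [ZeroMemClass.coe_zero, map_zero]
      exact B.zero_mem
    · intro F G hF hG m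
      rw [AddMemClass.coe_add, map_add]
      exact B.add_mem (hF m) (hG m)
    · rintro ⟨a, n⟩ x hx m
      rw [coe_el, hΦ, sharpHom_single, AddMonoidAlgebra.coeff_single, Finsupp.single_apply]
      split_ifs
      · exact ⟨single a x, single_mem_alg.2 hx, rfl⟩
      · exact B.zero_mem
  have hpiece : ∀ m : ℤ, (N'.sharp (AddMonoidHom.fst ι ℤ) (AddMonoidHom.snd ι ℤ)).s m =
      Subalgebra.toSubmodule B := by
    intro m
    ext z
    constructor
    · rintro ⟨F, hF, hz⟩
      have h1 := hcoeff ⟨F, hF⟩ m
      have h2 : Φ F = single m z := hz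
      change (Φ F).coeff m ∈ B at h1
      rw [h2, AddMonoidAlgebra.coeff_single, Finsupp.single_eq_same] at h1
      exact h1
    · rintro ⟨F, hF, rfl⟩
      have key : ∀ F : N.alg, j (F : AddMonoidAlgebra K ι) ∈
          (N'.sharp (AddMonoidHom.fst ι ℤ) (AddMonoidHom.snd ι ℤ)).s m := by
        intro F
        refine alg_induction N (p := fun F => j (F : AddMonoidAlgebra K ι) ∈
          (N'.sharp (AddMonoidHom.fst ι ℤ) (AddMonoidHom.snd ι ℤ)).s m) ?_ ?_ ?_ F
        · rw [ZeroMemClass.coe_zero, map_zero]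
          exact Submodule.zero_mem _
        · intro F G hF hG
          rw [AddMemClass.coe_add, map_add]
          exact Submodule.add_mem _ hF hG
        · intro a x hx
          exact mem_sharp (M := N') (g := AddMonoidHom.fst ι ℤ) (h := AddMonoidHom.snd ι ℤ)
            (a := (a, m)) hx
      exact key ⟨F, hF⟩
  have h1 := formallySmooth_of_const B _ hpiece hB
  rw [sharp_alg] at h1
  let e := N'.alg.equivMapOfInjective Φ (sharpHom_injective _ _ hinj)
  exact Algebra.FormallySmooth.of_equiv (A := N'.alg.map Φ) (B := N'.alg) e.symm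

/-- The monoid homomorphism defining the retraction. -/
noncomputable def unitMon (f : ℤ →+ ι) (ζ : ι →+ Additive Kˣ) :
    Multiplicative (ι × ℤ) →* AddMonoidAlgebra K ℤ where
  toFun a := single a.toAdd.2 ((ζ (f a.toAdd.2 - a.toAdd.1)).toMul : K)
  map_one' := by
    rw [toAdd_one, Prod.fst_zero, Prod.snd_zero, map_zero, sub_zero, map_zero]
    rfl
  map_mul' a b := by
    rw [single_mul_single, toAdd_mul, Prod.fst_add, Prod.snd_add, map_add, add_sub_add_comm,
      map_add, toMul_add, Units.val_mul]

/-- If `N` contains homogeneous units of all degrees, then formal smoothness passes to the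
restricted algebra. -/
theorem Fam.formallySmooth_comap_of_units [IsDomain (AddMonoidAlgebra K ι)] (f : ℤ →+ ι)
    (N : Fam k K ι) (ζ : ι →+ Additive Kˣ) (hζ : ∀ a, ((ζ a).toMul : K) ∈ N.s a)
    (h : Algebra.FormallySmooth k N.alg) : Algebra.FormallySmooth k (N.comap f).alg := by
  have h1 := N.smooth_comap_fst h
  let g : ℤ →+ ι × ℤ := f.prod (AddMonoidHom.id ℤ)
  let R : AddMonoidAlgebra K (ι × ℤ) →ₐ[K] AddMonoidAlgebra K ℤ :=
    AddMonoidAlgebra.lift K _ (ι × ℤ) (unitMon f ζ)
  have hR : ∀ (a : ι) (m : ℤ) (x : K), R (single (a, m) x) =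
      single m (x * ((ζ (f m - a)).toMul : K)) := by
    intro a m x
    simp only [R]
    rw [lift_single]
    change x • single m ((ζ (f m - a)).toMul : K) = _
    rw [smul_single, smul_eq_mul]
  set N' := N.comap (AddMonoidHom.fst ι ℤ) with hN'
  have hcomap : N.comap f = N'.comap g := rfl
  rw [hcomap]
  have hmem : ∀ F ∈ N'.alg, R F ∈ (N'.comap g).alg := by
    intro F hF
    rw [eq_sum F, map_sum]
    refine Subalgebra.sum_mem _ ?_
    rintro ⟨a, m⟩ _
    rw [hR]
    refine single_mem_alg.2 ?_
    have h2 := N.mul' (hF (a, m)) (hζ (f m - a))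
    have h3 : AddMonoidHom.fst ι ℤ (a, m) + (f m - a) = f m := by
      change a + (f m - a) = f m
      abel
    rw [h3] at h2
    exact h2
  let r : N'.alg →ₐ[k] (N'.comap g).alg :=
    ((R.restrictScalars k).comp N'.alg.val).codRestrict _ fun F => hmem F.1 F.2
  refine formallySmooth_of_retract (ofComap g N') r ?_ h1
  refine AlgHom.ext fun F => ?_
  refine alg_induction (N'.comap g)
    (p := fun F => (r.comp (ofComap g N')) F = AlgHom.id k _ F) ?_ ?_ ?_ F
  · simp
  · intro F G hF hG; rw [map_add, map_add, hF, hG]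
  · intro a x hx
    refine Subtype.ext ?_
    change R (mapDomain g (single a x)) = single a x
    rw [mapDomain_single]
    change R (single (f a, a) x) = _
    rw [hR, sub_self, map_zero]
    simp

end Pool.Agent.MP_b525bf_ag
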