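import Pool.Agent.Lib.MP_b525bf_ag_h52d.StepMain
import Pool.Agent.Lib.MP_b525bf_ag_h52d.Units
import Pool.Agent.Lib.MP_b525bf_ag.GoodC

/-!
The end of the destackification: when the stabilisers are trivial, the multigraded family is
restricted to the multiples of one degree.
-/

namespace Pool.Agent.MP_b525bf_ag

open AddMonoidAlgebra Fam

variable {k K ι : Type} [Field k] [Field K] [Algebra k K] [AddCommGroup ι]

/-! ### Homogeneous units -/

/-- The degrees of the homogeneous units. -/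
def unitDegs (N : Fam k K ι) : AddSubgroup ι where
  carrier := {a | ∃ z ∈ N.s a, z ≠ 0 ∧ z⁻¹ ∈ N.s (-a)}
  zero_mem' := ⟨1, N.one', one_ne_zero, by rw [inv_one, neg_zero]; exact N.one'⟩
  add_mem' := by
    rintro a b ⟨x, hx, hx0, hx'⟩ ⟨y, hy, hy0, hy'⟩
    refine ⟨x * y, N.mul' hx hy, mul_ne_zero hx0 hy0, ?_⟩
    rw [mul_inv, neg_add]
    exact N.mul' hx' hy'
  neg_mem' := by
    rintro a ⟨x, hx, hx0, hx'⟩
    exact ⟨x⁻¹, hx', inv_ne_zero hx0, by rw [inv_inv, neg_neg]; exact hx⟩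

lemma exists_zeta [Module.Free ℤ ι] [Module.Finite ℤ ι] (N : Fam k K ι) (h : unitDegs N = ⊤) :
    ∃ ζ : ι →+ Additive Kˣ, ∀ a, ((ζ a).toMul : K) ∈ N.s a := by
  classical
  let b := Module.Free.chooseBasis ℤ ι
  have h1 : ∀ j, ∃ z ∈ N.s (b j), z ≠ 0 ∧ z⁻¹ ∈ N.s (-(b j)) := by
    intro j
    have : b j ∈ unitDegs N := by rw [h]; trivial
    exact this
  choose z hz hz0 hz' using h1
  let ζ : ι →+ Additive Kˣ :=
    (b.constr ℤ (fun j => Additive.ofMul (Units.mk0 (z j) (hz0 j)))).toAddMonoidHom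
  have hζb : ∀ j, ζ (b j) = Additive.ofMul (Units.mk0 (z j) (hz0 j)) := by
    intro j
    exact b.constr_basis ℤ _ j
  let S : AddSubgroup ι :=
    { carrier := {a | ((ζ a).toMul : K) ∈ N.s a ∧ ((ζ (-a)).toMul : K) ∈ N.s (-a)}
      zero_mem' := by
        refine ⟨?_, ?_⟩
        · rw [map_zero]; exact N.one'
        · rw [neg_zero, map_zero]; exact N.one'
      add_mem' := by
        rintro a c ⟨h1, h2⟩ ⟨h3, h4⟩
        refine ⟨?_, ?_⟩
        · rw [map_add, toMul_add, Units.val_mul]; exact N.mul' h1 h3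
        · rw [neg_add, map_add, toMul_add, Units.val_mul]; exact N.mul' h2 h4
      neg_mem' := by
        rintro a ⟨h1, h2⟩
        exact ⟨h2, by rw [neg_neg]; exact h1⟩ }
  have hS : ∀ j, b j ∈ S := by
    intro j
    refine ⟨?_, ?_⟩
    · rw [hζb]; exact hz j
    · rw [map_neg, hζb, toMul_neg, toMul_ofMul, Units.val_inv_eq_inv_val, Units.val_mk0]
      exact hz' j
  refine ⟨ζ, fun a => ?_⟩
  have h2 : (⊤ : Submodule ℤ ι) ≤ AddSubgroup.toIntSubmodule S := by
    rw [← b.span_eq, Submodule.span_le]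
    rintro _ ⟨j, rfl⟩
    exact hS j
  exact (h2 (Submodule.mem_top (x := a))).1

lemma mem_unitDegs_loc {M : Fam k K ι} {a b : ι} {u w : K} (hu : u ∈ M.s a) (hw : w ∈ M.s b)
    (hu0 : u ≠ 0) (hw0 : w ≠ 0) : a ∈ unitDegs (M.loc (M.mul' hu hw)) := by
  refine ⟨u, M.le_loc _ _ hu, hu0, 1, ?_⟩
  have e1 : (u * w) ^ 1 * u⁻¹ = w := by field_simp
  have e2 : 1 • (a + b) + -a = b := by rw [one_nsmul]; abel
  rw [e1, e2]
  exact hw

lemma unitDegs_loc_mul {M : Fam k K ι} {a b : ι} {x y : K} (hx : x ∈ M.s a) (hy : y ∈ M.s b) :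
    unitDegs (M.loc hy) ≤ unitDegs (M.loc (M.mul' hx hy)) := by
  have key : ∀ (e : ι) (z : K), z ∈ (M.loc hy).s e → z ∈ (M.loc (M.mul' hx hy)).s e := by
    rintro e z ⟨m, hm⟩
    refine ⟨m, ?_⟩
    have h1 := M.mul' (M.pow' hx m) hm
    have e1 : m • a + (m • b + e) = m • (a + b) + e := by rw [nsmul_add]; abel
    rw [e1] at h1
    convert h1 using 1
    ring
  rintro e ⟨z, hz, hz0, hz'⟩
  exact ⟨z, key _ _ hz, hz0, key _ _ hz'⟩

lemma unitDegs_loc_mul' {M : Fam k K ι} {a b : ι} {x y : K} (hx : x ∈ M.s a) (hy : y ∈ M.s b) :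
    unitDegs (M.loc hx) ≤ unitDegs (M.loc (M.mul' hx hy)) := by
  rw [M.loc_congr' (M.mul' hx hy) (M.mul' hy hx) (add_comm _ _) (mul_comm _ _)]
  exact unitDegs_loc_mul hy hx

section

variable {M : Fam k K ι} {θ : ι}

lemma GoodI.grp_eq_top (hM : GoodI M θ 1) (P : GP M) (hP : P.Semi θ) : P.grp = ⊤ := by
  obtain ⟨h1, h2⟩ := hM.idx P hP
  exact AddSubgroup.index_eq_one.1 (by omega)

lemma GoodI.exists_unit (hM : GoodI M θ 1) (P : GP M) (hP : P.Semi θ) (S : Finset ι) :
    ∃ n : ℕ, 0 < n ∧ ∃ (y : K) (hy : y ∈ M.s (n • θ)), y ∉ P.I (n • θ) ∧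
      ∀ a ∈ S, a ∈ unitDegs (M.loc hy) := by
  classical
  induction S using Finset.induction_on with
  | empty =>
    obtain ⟨n, hn, y, hy, hy'⟩ := hP
    exact ⟨n, hn, y, hy, hy', fun a ha => absurd ha (Finset.notMem_empty a)⟩
  | insert b S hb ih =>
    obtain ⟨n, hn, y, hy, hyP, hyS⟩ := ih
    have hbg : b ∈ P.grp := by rw [hM.grp_eq_top P hP]; trivial
    obtain ⟨l, hl, hbl⟩ := hbg
    obtain ⟨l', hl', n1, hn1, h1⟩ := GP.exists_compl θ (fun P hP => (hM.idx P hP).1) P hP hl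
    obtain ⟨l'', hl'', n2, hn2, h2⟩ := GP.exists_compl θ (fun P hP => (hM.idx P hP).1) P hP hbl
    obtain ⟨v, hv, hvP⟩ := hl
    obtain ⟨u, hu, huP⟩ := hbl
    obtain ⟨v', hv', hvP'⟩ := hl'
    obtain ⟨u', hu', huP'⟩ := hl''
    have hv0 := P.ne_zero_of_notMem hvP
    have hu0 := P.ne_zero_of_notMem huP
    have hv0' := P.ne_zero_of_notMem hvP'
    have hu0' := P.ne_zero_of_notMem huP'
    have hvv := M.mul' hv hv'
    have huu := M.mul' hu hu'
    have hvvP := P.mul_notMem hv hvP hv' hvP'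
    have huuP := P.mul_notMem hu huP hu' huP'
    have hprod := M.mul' (M.mul' huu hvv) hy
    have hprodP := P.mul_notMem (M.mul' huu hvv) (P.mul_notMem huu huuP hvv hvvP) hy hyP
    have hmem1 : b + l ∈ unitDegs (M.loc hprod) :=
      unitDegs_loc_mul' (M.mul' huu hvv) hy
        (unitDegs_loc_mul' huu hvv (mem_unitDegs_loc hu hu' hu0 hu0'))
    have hmem2 : l ∈ unitDegs (M.loc hprod) :=
      unitDegs_loc_mul' (M.mul' huu hvv) hy
        (unitDegs_loc_mul huu hvv (mem_unitDegs_loc hv hv' hv0 hv0'))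
    have hmem3 : b ∈ unitDegs (M.loc hprod) := by
      have := sub_mem hmem1 hmem2
      rwa [add_sub_cancel_right] at this
    have hmem4 : ∀ a ∈ S, a ∈ unitDegs (M.loc hprod) := fun a ha =>
      unitDegs_loc_mul (M.mul' huu hvv) hy (hyS a ha)
    have hdeg : b + l + l'' + (l + l') + n • θ = (n2 + n1 + n) • θ := by
      rw [h1, h2, add_nsmul, add_nsmul]
    have hprod' : u * u' * (v * v') * y ∈ M.s ((n2 + n1 + n) • θ) := by
      rw [← hdeg]; exact hprod
    refine ⟨n2 + n1 + n, by omega, _, hprod', ?_, ?_⟩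
    · rw [← hdeg]; exact hprodP
    · rw [← M.loc_congr' hprod hprod' hdeg rfl]
      intro a ha
      rcases Finset.mem_insert.1 ha with rfl | ha
      · exact hmem3
      · exact hmem4 a ha

lemma GoodI.exists_unit_top [Module.Free ℤ ι] [Module.Finite ℤ ι] (hM : GoodI M θ 1) (P : GP M)
    (hP : P.Semi θ) : ∃ n : ℕ, 0 < n ∧ ∃ (y : K) (hy : y ∈ M.s (n • θ)), y ∉ P.I (n • θ) ∧
      unitDegs (M.loc hy) = ⊤ := by
  classical
  let b := Module.Free.chooseBasis ℤ ι
  obtain ⟨n, hn, y, hy, hyP, hS⟩ := hM.exists_unit P hP (Finset.univ.image b)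
  refine ⟨n, hn, y, hy, hyP, ?_⟩
  rw [eq_top_iff]
  have h2 : (⊤ : Submodule ℤ ι) ≤ AddSubgroup.toIntSubmodule (unitDegs (M.loc hy)) := by
    rw [← b.span_eq, Submodule.span_le]
    rintro _ ⟨j, rfl⟩
    exact hS _ (Finset.mem_image_of_mem _ (Finset.mem_univ j))
  intro a _
  exact h2 (Submodule.mem_top (x := a))

lemma GoodI.exists_uv (hM : GoodI M θ 1) (P : GP M) (hP : P.Semi θ) :
    ∃ n : ℕ, (∃ u ∈ M.s ((n + 1) • θ), u ∉ P.I ((n + 1) • θ)) ∧
      ∃ v ∈ M.s (n • θ), v ∉ P.I (n • θ) := by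
  have hbg : θ ∈ P.grp := by rw [hM.grp_eq_top P hP]; trivial
  obtain ⟨l, hl, hbl⟩ := hbg
  obtain ⟨l', hl', n, hn, h1⟩ := GP.exists_compl θ (fun P hP => (hM.idx P hP).1) P hP hl
  refine ⟨n, ?_, ?_⟩
  · have := add_mem hbl hl'
    have e1 : θ + l + l' = (n + 1) • θ := by rw [add_assoc, h1, add_nsmul, one_nsmul, add_comm]
    rw [e1] at this
    exact this
  · have := add_mem hl hl'
    rw [h1] at this
    exact this

end

/-! ### The extended family -/

theorem Fam.fg_comap_fst (N : Fam k K ι) (hfg : N.alg.FG) :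
    (N.comap (AddMonoidHom.fst ι ℤ)).alg.FG := by
  classical
  obtain ⟨r, d, x, hx, hN⟩ := N.exists_gens hfg
  set S : Set (AddMonoidAlgebra K (ι × ℤ)) :=
    insert (single (0, 1) 1) (insert (single (0, -1) 1)
      (Set.range fun i => (single (d i, 0) (x i) : AddMonoidAlgebra K (ι × ℤ)))) with hS
  have hfin : S.Finite := ((Set.finite_range _).insert _).insert _
  refine Subalgebra.fg_def.2 ⟨S, hfin, ?_⟩
  apply le_antisymm
  · refine Algebra.adjoin_le ?_
    rintro F (rfl | rfl | ⟨i, rfl⟩)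
    · exact single_mem_alg.2 N.one'
    · exact single_mem_alg.2 N.one'
    · exact single_mem_alg.2 (hx i)
  · refine alg_le ?_
    rintro ⟨a, m⟩ z hz
    have hz' : z ∈ N.s a := hz
    refine single_mem_of_mon (N.s_le_mon hN _ hz') ?_
    intro α hα
    have h0 : ∀ i, (single (d i, 0) (x i) : AddMonoidAlgebra K (ι × ℤ)) ∈
        Algebra.adjoin k S := fun i => Algebra.subset_adjoin (Or.inr (Or.inr ⟨i, rfl⟩))
    have h1 : ∏ i, (single (d i, 0) (x i) : AddMonoidAlgebra K (ι × ℤ)) ^ α i ∈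
        Algebra.adjoin k S :=
      Subalgebra.prod_mem _ fun i _ => Subalgebra.pow_mem _ (h0 i) _
    rw [prod_single] at h1
    have hsum : ∑ i, α i • ((d i, 0) : ι × ℤ) = (a, 0) := by
      rw [Prod.ext_iff]
      constructor
      · rw [Prod.fst_sum]; simpa using hα
      · rw [Prod.snd_sum]; simp
    rw [hsum] at h1
    rcases le_total 0 m with hm | hm
    · obtain ⟨j, rfl⟩ := Int.eq_ofNat_of_zero_le hm
      have h2 : (single (0, 1) 1 : AddMonoidAlgebra K (ι × ℤ)) ∈ Algebra.adjoin k S :=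
        Algebra.subset_adjoin (Or.inl rfl)
      have h3 := Subalgebra.mul_mem _ h1 (Subalgebra.pow_mem _ h2 j)
      rw [AddMonoidAlgebra.single_pow, AddMonoidAlgebra.single_mul_single, one_pow, mul_one] at h3
      convert h3 using 2
      rw [Prod.ext_iff]
      constructor
      · simp
      · simp
    · obtain ⟨j, rfl⟩ := Int.exists_eq_neg_ofNat hm
      have h2 : (single (0, -1) 1 : AddMonoidAlgebra K (ι × ℤ)) ∈ Algebra.adjoin k S :=
        Algebra.subset_adjoin (Or.inr (Or.inl rfl))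
      have h3 := Subalgebra.mul_mem _ h1 (Subalgebra.pow_mem _ h2 j)
      rw [AddMonoidAlgebra.single_pow, AddMonoidAlgebra.single_mul_single, one_pow, mul_one] at h3
      convert h3 using 2
      rw [Prod.ext_iff]
      constructor
      · simp
      · simp

/-- The homomorphism `n ↦ n θ`. -/
def ray (θ : ι) : ℤ →+ ι := zmultiplesHom ι θ

lemma ray_apply (θ : ι) (n : ℤ) : ray θ n = n • θ := rfl

lemma ray_natCast (θ : ι) (n : ℕ) : ray θ n = n • θ := by rw [ray_apply, natCast_zsmul]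

/-- The graph of `ray θ`. -/
def rayg (θ : ι) : ℤ →+ ι × ℤ := (ray θ).prod (AddMonoidHom.id ℤ)

lemma rayg_injective (θ : ι) : Function.Injective (rayg θ) := fun _ _ h => (Prod.ext_iff.1 h).2

theorem Fam.fg_ray (M : Fam k K ι) (θ : ι) (hfg : M.alg.FG) : (M.comap (ray θ)).alg.FG :=
  fg_comap (rayg θ) (rayg_injective θ) (M.comap (AddMonoidHom.fst ι ℤ)) (M.fg_comap_fst hfg)

/-- The graded prime under a prime ideal of the restricted algebra. -/
theorem exists_gp_under (M : Fam k K ι) (θ : ι) (q : Ideal (M.comap (ray θ)).alg) [q.IsPrime] :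
    ∃ P : GP M, ∀ (n : ℤ) (x : K) (hx : x ∈ (M.comap (ray θ)).s n),
      (M.comap (ray θ)).el hx ∈ q ↔ x ∈ P.I (ray θ n) := by
  set N' := M.comap (AddMonoidHom.fst ι ℤ) with hN'
  obtain ⟨Q, hQ, hQq⟩ := @exists_prime_over_comap k K (ι × ℤ) ℤ _ _ _ _ _ (rayg θ)
    (rayg_injective θ) N' q ‹_›
  let P' := GP.ofIdeal N' Q
  have hshift : ∀ (a : ι) (m m' : ℤ) (x : K), x ∈ P'.I (a, m) → x ∈ P'.I (a, m') := by
    intro a m m' x hx
    have h1 : (1 : K) ∈ N'.s (0, m' - m) := M.one'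
    have h2 := P'.mul_left' hx h1
    rw [mul_one] at h2
    have e1 : ((a, m) : ι × ℤ) + (0, m' - m) = (a, m') := by
      rw [Prod.ext_iff]; constructor <;> simp
    rwa [e1] at h2
  let P : GP M :=
    { I := fun a => P'.I (a, 0)
      le' := fun a => P'.le' (a, 0)
      mul' := by
        intro a b x y hx hy
        have h1 : x ∈ N'.s (a, 0) := hx
        have h2 := P'.mul' h1 hy
        rwa [show ((a, 0) : ι × ℤ) + (b, 0) = (a + b, 0) by simp] at h2
      one' := P'.one'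
      prime' := by
        intro a b x y hx hy h
        have h1 : x ∈ N'.s (a, 0) := hx
        have h2 : y ∈ N'.s (b, 0) := hy
        rw [show ((a + b, 0) : ι × ℤ) = (a, 0) + (b, 0) by simp] at h
        exact P'.prime' h1 h2 h }
  refine ⟨P, fun n x hx => ?_⟩
  have hx' : x ∈ N'.s (rayg θ n) := hx
  have h1 : (M.comap (ray θ)).el hx ∈ q ↔ N'.el hx' ∈ Q := by
    rw [← hQq]
    exact iff_of_eq (congrArg (· ∈ Q) (ofComap_el (rayg θ) N' (a := n) hx'))
  rw [h1, ← GP.mem_ofIdeal hx']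
  exact ⟨fun h => hshift _ _ _ _ h, fun h => hshift _ _ _ _ h⟩

/-- The restriction of a multigraded family with trivial stabilisers to the multiples of `θ`. -/
theorem GoodI.goodC [Module.Free ℤ ι] [Module.Finite ℤ ι] {M : Fam k K ι} {θ : ι}
    (hM : GoodI M θ 1) : GoodC (M.comap (ray θ)) 1 := by
  have hdom := isDomain_of_free K ι
  have hfg := M.fg_ray θ hM.fg
  have hsemi : ∀ (q : Ideal (M.comap (ray θ)).alg) [q.IsPrime] (P : GP M),
      (∀ (n : ℤ) (x : K) (hx : x ∈ (M.comap (ray θ)).s n),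
        (M.comap (ray θ)).el hx ∈ q ↔ x ∈ P.I (ray θ n)) →
      ∀ (d : ℤ), 0 < d → ∀ (x : K) (hx : x ∈ (M.comap (ray θ)).s d),
        (M.comap (ray θ)).el hx ∉ q → P.Semi θ := by
    intro q _ P hP d hd x hx hxq
    obtain ⟨n, rfl⟩ := Int.eq_ofNat_of_zero_le hd.le
    refine ⟨n, by omega, x, ?_, ?_⟩
    · rw [← ray_natCast]; exact hx
    · rw [← ray_natCast]
      exact fun h => hxq ((hP _ x hx).2 h)
  refine ⟨hfg, ?_, ?_, ?_, ?_, ?_⟩
  · -- smoothness
    intro d hd x hx hx0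
    refine formallySmooth_loc_of_cover _ hfg hx hx0 fun q hq hxq => ?_
    obtain ⟨P, hP⟩ := exists_gp_under M θ q
    obtain ⟨n, hn, y, hy, hyP, hytop⟩ := hM.exists_unit_top P (hsemi q P hP d hd x hx hxq)
    have hy' : y ∈ (M.comap (ray θ)).s n := by
      change y ∈ M.s (ray θ n)
      rw [ray_natCast]; exact hy
    refine ⟨n, y, hy', fun h => hyP ?_, ?_⟩
    · have := (hP _ y hy').1 h
      rwa [ray_natCast] at this
    · obtain ⟨m, rfl⟩ := Int.eq_ofNat_of_zero_le hd.le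
      have hxM : x ∈ M.s (m • θ) := by rw [← ray_natCast]; exact hx
      have hy0 := P.ne_zero_of_notMem hyP
      have hxy : x * y ∈ M.s (ray θ ((m : ℤ) + n)) := ((M.comap (ray θ)).mul' hx hy')
      have e1 : (M.comap (ray θ)).loc ((M.comap (ray θ)).mul' hx hy') =
          (M.loc hxy).comap (ray θ) := comap_loc (ray θ) M (a := (m : ℤ) + n) hxy
      rw [e1]
      have hxy' := M.mul' hxM hy
      have hxy'' : x * y ∈ M.s ((m + n) • θ) := by rw [add_nsmul]; exact hxy'
      have e2 : M.loc hxy = M.loc hxy' := M.loc_congr' _ _ (by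
        rw [map_add, ray_natCast, ray_natCast]) rfl
      have e3 : M.loc hxy = M.loc hxy'' := M.loc_congr' _ _ (by
        rw [map_add, ray_natCast, ray_natCast, add_nsmul]) rfl
      have hsm : Algebra.FormallySmooth k (M.loc hxy).alg := by
        rw [e3]
        exact hM.smooth (m + n) (by omega) _ hxy'' (mul_ne_zero hx0 hy0)
      have htop : unitDegs (M.loc hxy) = ⊤ := by
        rw [e2, eq_top_iff, ← hytop]
        exact unitDegs_loc_mul hxM hy
      obtain ⟨ζ, hζ⟩ := exists_zeta (M.loc hxy) htop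
      exact formallySmooth_comap_of_units (ray θ) (M.loc hxy) ζ hζ hsm
  · -- stabilisers
    rintro q hq ⟨d, hd, x, hx, hxq⟩
    obtain ⟨P, hP⟩ := exists_gp_under M θ q
    obtain ⟨n, ⟨u, hu, huP⟩, v, hv, hvP⟩ := hM.exists_uv P (hsemi q P hP d hd x hx hxq)
    have hu' : u ∈ (M.comap (ray θ)).s ((n : ℤ) + ((1 : ℕ) : ℤ)) := by
      change u ∈ M.s (ray θ ((n : ℤ) + ((1 : ℕ) : ℤ)))
      rw [← Nat.cast_add, ray_natCast]; exact hu
    have hv' : v ∈ (M.comap (ray θ)).s (n : ℤ) := by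
      change v ∈ M.s (ray θ n)
      rw [ray_natCast]; exact hv
    refine ⟨1, one_pos, le_rfl, n, u, v, hu', hv', fun h => huP ?_, fun h => hvP ?_⟩
    · have := (hP _ u hu').1 h
      rwa [← Nat.cast_add, ray_natCast] at this
    · have := (hP _ v hv').1 h
      rwa [ray_natCast] at this
  · -- ones
    refine ⟨1, one_pos, fun d hd _ => ?_⟩
    obtain ⟨n, rfl⟩ := Int.exists_eq_neg_ofNat hd
    change (1 : K) ∈ M.s (ray θ (-(n : ℤ)))
    rw [map_neg, ray_natCast]
    exact hM.neg n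
  · -- nontriviality
    obtain ⟨n, hn, x, hx, hx'⟩ := hM.nontriv
    refine ⟨n, by exact_mod_cast hn, x, ?_, GP.ne_zero_of_notMem _ hx'⟩
    change x ∈ M.s (ray θ n)
    rw [ray_natCast]; exact hx
  · -- generation
    obtain ⟨n, ⟨u, hu, huP⟩, v, hv, hvP⟩ := hM.exists_uv (GP.bot M) hM.nontriv
    refine ⟨n, u, ?_, v, ?_, GP.ne_zero_of_notMem _ huP, GP.ne_zero_of_notMem _ hvP⟩
    · change u ∈ M.s (ray θ ((n : ℤ) + 1))
      rw [← Nat.cast_succ, ray_natCast]; exact hu
    · change v ∈ M.s (ray θ n)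
      rw [ray_natCast]; exact hv

/-- The induction. -/
theorem GoodI.exists_goodC : ∀ (w n : ℕ) (ι : Type) [AddCommGroup ι] [Module.Free ℤ ι]
    [Module.Finite ℤ ι] (M : Fam k K ι) (θ : ι), GoodI M θ w → (occ M θ w).ncard ≤ n →
    ∃ M' : Fam k K ℤ, GoodC M' 1 ∧ M'.s 0 = M.s 0 := by
  intro w
  induction w with
  | zero =>
    intro n ι _ _ _ M θ hM _
    obtain ⟨h1, h2⟩ := hM.idx _ hM.nontriv
    omega
  | succ w ihw =>
    intro n
    induction n with
    | zero =>
      intro ι _ _ _ M θ hM hn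
      rcases Nat.eq_zero_or_pos w with rfl | hw
      · refine ⟨M.comap (ray θ), GoodI.goodC (by simpa using hM), ?_⟩
        rw [comap_s, map_zero]
      · have hempty : occ M θ (w + 1) = ∅ := by
          rw [← Set.ncard_eq_zero (occ_finite hM.fg θ (w + 1))]
          omega
        have hM' : GoodI M θ w := by
          refine ⟨hM.fg, hM.smooth, fun P hP => ?_, hM.neg, hM.nontriv, hM.gen⟩
          obtain ⟨h1, h2⟩ := hM.idx P hP
          refine ⟨h1, ?_⟩
          have h3 : P.grp.index ≠ w + 1 := by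
            intro h
            have : P.grp ∈ occ M θ (w + 1) := ⟨h, P, hP, rfl⟩
            rw [hempty] at this
            exact this
          omega
        exact ihw _ ι M θ hM' le_rfl
    | succ n ihn =>
      intro ι _ _ _ M θ hM hn
      rcases Nat.eq_zero_or_pos w with rfl | hw
      · refine ⟨M.comap (ray θ), GoodI.goodC (by simpa using hM), ?_⟩
        rw [comap_s, map_zero]
      · by_cases hne : (occ M θ (w + 1)).Nonempty
        · obtain ⟨H₀, hH₀⟩ := hne
          have htop : H₀ ≠ ⊤ := by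
            rintro rfl
            have := hH₀.1
            rw [AddSubgroup.index_top] at this
            omega
          obtain ⟨c, l, hc, hl, hcH⟩ := exists_functional H₀ htop
          have hdom := isDomain_of_free K ι
          obtain ⟨θ', h1, h2, h3⟩ := hM.step hH₀ hc hl hcH
          have hfree : Module.Free ℤ (ι × ℤ) := inferInstance
          have hfin : Module.Finite ℤ (ι × ℤ) := inferInstance
          obtain ⟨M', h4, h5⟩ := ihn (ι × ℤ) (M.wr c l) θ' h1 (by omega)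
          exact ⟨M', h4, h5.trans h3⟩
        · refine ihn ι M θ hM ?_
          rw [Set.not_nonempty_iff_eq_empty.1 hne, Set.ncard_empty]
          omega

end Pool.Agent.MP_b525bf_ag
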