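import Pool.Agent.Lib.MP_b525bf_ag_h52d.Sharp

/-!
The weighted blow-up of the fixed locus of `μ_l`, with the exceptional parameter replaced by its
`l`-th power, for multigraded families.
-/

namespace Pool.Agent.MP_b525bf_ag

open AddMonoidAlgebra

variable {k K ι : Type} [Field k] [Field K] [Algebra k K] [AddCommGroup ι]

namespace Fam

/-- The generators: elements of degree `d` are put in degree `(d, c d / l)`, and `s = T ^ (0, 1)`.
The weight of the degree `(a, m)` is `c a - l * m`. -/
noncomputable def wrgens (M : Fam k K ι) (c : ι →+ ℤ) (l : ℕ) : Set (AddMonoidAlgebra K (ι × ℤ)) :=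
  {F | ∃ d : ι, ∃ x ∈ M.s d, F = single (d, c d / l) x} ∪ {single (0, 1) 1}

/-- The weighted Rees algebra of `M` with respect to the locus where all elements of degree `d` with
`c d` not divisible by `l` vanish. -/
noncomputable def wr (M : Fam k K ι) (c : ι →+ ℤ) (l : ℕ) : Fam k K (ι × ℤ) :=
  ofSub (Algebra.adjoin k (M.wrgens c l))

variable (M : Fam k K ι) (c : ι →+ ℤ) (l : ℕ)

lemma wr_gen {d : ι} {x : K} (hx : x ∈ M.s d) : x ∈ (M.wr c l).s (d, c d / l) :=
  Algebra.subset_adjoin (Or.inl ⟨d, x, hx, rfl⟩)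

lemma wr_one : (1 : K) ∈ (M.wr c l).s (0, 1) := Algebra.subset_adjoin (Or.inr rfl)

lemma wr_alg : (M.wr c l).alg = Algebra.adjoin k (M.wrgens c l) := by
  apply ofSub_adjoin_alg
  rintro F (⟨d, x, -, rfl⟩ | hF)
  · exact ⟨_, _, rfl⟩
  · exact ⟨_, _, hF⟩

/-- The first projection. -/
def wfst (ι : Type) [AddCommGroup ι] : ι × ℤ →+ ι := AddMonoidHom.fst ι ℤ

/-- The weight. -/
def wwt (c : ι →+ ℤ) (l : ℕ) : ι × ℤ →+ ℤ := c.coprod (AddMonoidHom.mulLeft (-(l : ℤ)))

@[simp] lemma wwt_apply (a : ι) (m : ℤ) : wwt c l (a, m) = c a - l * m := by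
  change c a + -(l : ℤ) * m = _
  ring

lemma wr_le {a : ι} {m : ℤ} {x : K} (hx : x ∈ (M.wr c l).s (a, m)) : x ∈ M.s a := by
  have h : Algebra.adjoin k (M.wrgens c l) ≤ (M.comap (AddMonoidHom.fst ι ℤ)).alg := by
    refine Algebra.adjoin_le ?_
    rintro _ (⟨d, x, hx, rfl⟩ | h)
    · exact single_mem_alg.2 hx
    · rw [Set.mem_singleton_iff] at h
      rw [h]
      exact single_mem_alg.2 M.one'
  exact (single_mem_alg (M := M.comap (AddMonoidHom.fst ι ℤ))).1 (h hx)

variable {l}

lemma wr_of_nonpos (hl : 0 < l) {a : ι} {m : ℤ} (h : c a ≤ l * m) {x : K} (hx : x ∈ M.s a) :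
    x ∈ (M.wr c l).s (a, m) := by
  have hl' : (0 : ℤ) < l := by exact_mod_cast hl
  have h0 : c a / l ≤ m := by
    have := Int.ediv_le_ediv hl' h
    rwa [Int.mul_ediv_cancel_left _ hl'.ne'] at this
  have h1 := M.wr_gen c l hx
  have h2 := (M.wr c l).pow' (M.wr_one c l) (m - c a / l).toNat
  have h3 := (M.wr c l).mul' h1 h2
  rw [one_pow, mul_one] at h3
  convert h3 using 2
  rw [Prod.ext_iff]
  constructor
  · simp
  · change m = c a / l + (m - c a / l).toNat • (1 : ℤ)
    rw [nsmul_eq_mul, Int.toNat_of_nonneg (by omega)]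
    ring

/-- Generators of the weighted Rees algebra. -/
lemma wr_alg_eq (hl : 0 < l) {r : ℕ} {a : Fin r → ι} {x : Fin r → K} (hx : ∀ i, x i ∈ M.s (a i))
    (hM : M.alg = Algebra.adjoin k
      (Set.range fun i => (single (a i) (x i) : AddMonoidAlgebra K ι))) :
    (M.wr c l).alg = Algebra.adjoin k (insert (single (0, 1) 1)
      (Set.range fun i => (single (a i, c (a i) / l) (x i) : AddMonoidAlgebra K (ι × ℤ)))) := by
  classical
  have hwZ : (0 : ℤ) < l := by exact_mod_cast hl
  rw [wr_alg]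
  set G : Set (AddMonoidAlgebra K (ι × ℤ)) := insert (single (0, 1) 1)
      (Set.range fun i => (single (a i, c (a i) / l) (x i) : AddMonoidAlgebra K (ι × ℤ))) with hG
  apply le_antisymm
  · rw [Algebra.adjoin_le_iff]
    rintro F (⟨d, z, hz, rfl⟩ | hF)
    · refine single_mem_of_mon (M.s_le_mon hM _ hz) ?_
      intro α hα
      have hgen : ∀ i, (single (a i, c (a i) / l) (x i) : AddMonoidAlgebra K (ι × ℤ)) ∈
          Algebra.adjoin k G := by
        intro i
        apply Algebra.subset_adjoin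
        exact Or.inr ⟨i, rfl⟩
      have hs : (single (0, 1) 1 : AddMonoidAlgebra K (ι × ℤ)) ∈ Algebra.adjoin k G := by
        apply Algebra.subset_adjoin
        exact Or.inl rfl
      have hprod : ∏ i, (single (a i, c (a i) / l) (x i) : AddMonoidAlgebra K (ι × ℤ)) ^ α i ∈
          Algebra.adjoin k G :=
        Subalgebra.prod_mem _ fun i _ => Subalgebra.pow_mem _ (hgen i) _
      rw [prod_single] at hprod
      set W : ℤ := ∑ i, (α i : ℤ) * (c (a i) / l) with hW
      have hsum : ∑ i, α i • ((a i, c (a i) / l) : ι × ℤ) = (d, W) := by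
        rw [Prod.ext_iff]
        constructor
        · rw [Prod.fst_sum]; simpa using hα
        · rw [Prod.snd_sum]; simp [hW]
      rw [hsum] at hprod
      have hWle : l * W ≤ c d := by
        rw [← hα, map_sum, hW, Finset.mul_sum]
        refine Finset.sum_le_sum fun i _ => ?_
        rw [map_nsmul, nsmul_eq_mul]
        have h1 := Int.mul_ediv_self_le (x := c (a i)) hwZ.ne'
        have h2 : (0 : ℤ) ≤ α i := by positivity
        nlinarith
      have hWle' : W ≤ c d / l := by
        rw [Int.le_ediv_iff_mul_le hwZ]; linarith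
      have h2 := Subalgebra.mul_mem _ hprod (Subalgebra.pow_mem _ hs (c d / l - W).toNat)
      rw [AddMonoidAlgebra.single_pow, AddMonoidAlgebra.single_mul_single, one_pow, mul_one] at h2
      convert h2 using 2
      rw [Prod.ext_iff]
      constructor
      · simp
      · change c d / l = W + (c d / l - W).toNat • (1 : ℤ)
        rw [nsmul_eq_mul, Int.toNat_of_nonneg (by omega)]
        ring
    · rw [Set.mem_singleton_iff] at hF
      rw [hF]
      exact Algebra.subset_adjoin (Or.inl rfl)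
  · rw [Algebra.adjoin_le_iff]
    rintro F (rfl | ⟨i, rfl⟩)
    · exact Algebra.subset_adjoin (Or.inr rfl)
    · exact Algebra.subset_adjoin (Or.inl ⟨a i, x i, hx i, rfl⟩)

theorem wr_fg (hl : 0 < l) (hfg : M.alg.FG) : (M.wr c l).alg.FG := by
  obtain ⟨r, a, x, hx, hM⟩ := M.exists_gens hfg
  rw [M.wr_alg_eq c hl hx hM]
  refine Subalgebra.fg_def.2 ⟨_, ?_, rfl⟩
  exact (Set.finite_range _).insert _

/-- Localising commutes with forming the weighted Rees algebra. -/
lemma wr_loc (hl : 0 < l) {a : ι} (ha : (l : ℤ) ∣ c a) {x : K} (hx : x ∈ M.s a) (hx0 : x ≠ 0) :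
    (M.loc hx).wr c l = (M.wr c l).loc (M.wr_gen c l hx) := by
  have hl' : (l : ℤ) ≠ 0 := by exact_mod_cast hl.ne'
  obtain ⟨q, hq⟩ := ha
  have hdiv : ∀ (j : ℕ) (d : ι), c (j • a + d) / l = j * q + c d / l := by
    intro j d
    rw [map_add, map_nsmul, hq, nsmul_eq_mul, show (j : ℤ) * (l * q) + c d = c d + l * (j * q) by
      ring, Int.add_mul_ediv_left _ _ hl']
    ring
  have hdiv0 : c a / l = q := by
    rw [hq, Int.mul_ediv_cancel_left _ hl']
  ext ⟨v, m⟩ y
  constructor
  · intro hy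
    have h : Algebra.adjoin k ((M.loc hx).wrgens c l) ≤
        ((M.wr c l).loc (M.wr_gen c l hx)).alg := by
      refine Algebra.adjoin_le ?_
      rintro _ (⟨d, z, ⟨j, hj⟩, rfl⟩ | h)
      · refine single_mem_alg.2 ⟨j, ?_⟩
        have := M.wr_gen c l hj
        rw [hdiv] at this
        convert this using 2
        rw [Prod.ext_iff]
        constructor
        · rfl
        · change j • (c a / l) + c d / l = _
          rw [nsmul_eq_mul, hdiv0]
      · rw [Set.mem_singleton_iff] at h
        rw [h]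
        exact single_mem_alg.2 (le_loc _ _ _ (M.wr_one c l))
    exact single_mem_alg.1 (h hy)
  · rintro ⟨j, hj⟩
    have h1 : Algebra.adjoin k (M.wrgens c l) ≤ ((M.loc hx).wr c l).alg := by
      refine Algebra.adjoin_le ?_
      rintro _ (⟨d, z, hz, rfl⟩ | h)
      · exact single_mem_alg.2 (wr_gen _ _ _ (M.le_loc hx _ hz))
      · rw [Set.mem_singleton_iff] at h
        rw [h]
        exact single_mem_alg.2 (wr_one _ _ _)
    have h2 : x ^ j * y ∈ ((M.loc hx).wr c l).s (j • ((a, c a / l) : ι × ℤ) + (v, m)) :=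
      single_mem_alg.1 (h1 hj)
    have h3 : x⁻¹ ∈ ((M.loc hx).wr c l).s (-a, -q) := by
      have := (M.loc hx).wr_gen c l (M.inv_mem_loc hx hx0)
      rw [map_neg, hq, ← mul_neg, Int.mul_ediv_cancel_left _ hl'] at this
      exact this
    have h4 := ((M.loc hx).wr c l).mul' (((M.loc hx).wr c l).pow' h3 j) h2
    have e1 : (x⁻¹) ^ j * (x ^ j * y) = y := by
      rw [← mul_assoc, inv_pow, inv_mul_cancel₀ (pow_ne_zero _ hx0), one_mul]
    have e2 : j • ((-a, -q) : ι × ℤ) + (j • ((a, c a / l) : ι × ℤ) + (v, m)) = (v, m) := by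
      rw [← add_assoc, ← nsmul_add, hdiv0]
      simp
    rwa [e1, e2] at h4

section sharp

variable [IsDomain (AddMonoidAlgebra K ι)]

/-- The weight and the second component. -/
def wdeg (c : ι →+ ℤ) (l : ℕ) : ι × ℤ →+ ℤ × ℤ := (wwt c l).prod (AddMonoidHom.snd ι ℤ)

lemma wdeg_apply (a : ι) (m : ℤ) : wdeg c l (a, m) = (c a - l * m, m) := by
  change (wwt c l (a, m), m) = _
  rw [wwt_apply]

lemma sharp_wrees_alg :
    ((M.sharp (AddMonoidHom.id ι) c).wrees l).alg =
      (M.wr c l).alg.map (sharpHom k (AddMonoidHom.fst ι ℤ) (wdeg c l)) := by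
  set Φ := sharpHom (K := K) k (AddMonoidHom.fst ι ℤ) (wdeg c l) with hΦ
  set Φ₀ := sharpHom (K := K) k (AddMonoidHom.id ι) c with hΦ₀
  have hgen : ∀ {d : ι} {x : K}, x ∈ M.s d →
      Φ (single (d, c d / l) x) = single (c d % l, c d / l)
        (algebraMap (AddMonoidAlgebra K ι) _ (single d x)) := by
    intro d x _
    rw [hΦ, sharpHom_single, wdeg_apply]
    have h1 : c d - l * (c d / l) = c d % l := by
      have := Int.emod_add_mul_ediv (c d) l
      linarith
    rw [h1]; rfl
  have hone : Φ (single (0, 1) 1) = single (-(l : ℤ), 1) 1 := by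
    rw [hΦ, sharpHom_single, wdeg_apply]
    have h1 : c 0 - l * 1 = -(l : ℤ) := by rw [map_zero]; ring
    rw [h1]
    congr 1
    exact map_one (algebraMap (AddMonoidAlgebra K ι) _)
  apply le_antisymm
  · have h0 : ((M.sharp (AddMonoidHom.id ι) c).wrees l).alg =
        Algebra.adjoin k ((M.sharp (AddMonoidHom.id ι) c).wgens l) := by
      apply ofSub_adjoin_alg
      rintro F (⟨d, x, -, rfl⟩ | hF)
      · exact ⟨_, _, rfl⟩
      · exact ⟨_, _, hF⟩
    rw [h0, Algebra.adjoin_le_iff]
    rintro F (⟨n, z, ⟨F, hF, hz⟩, rfl⟩ | hF)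
    · have key : ∀ F : M.alg, ∀ n : ℤ,
          (single (n % l, n / l) ((Φ₀ (F : AddMonoidAlgebra K ι)).coeff n) :
            AddMonoidAlgebra (FractionRing (AddMonoidAlgebra K ι)) (ℤ × ℤ)) ∈
            (M.wr c l).alg.map Φ := by
        intro F
        refine alg_induction M (p := fun F => ∀ n : ℤ,
          (single (n % l, n / l) ((Φ₀ (F : AddMonoidAlgebra K ι)).coeff n) :
            AddMonoidAlgebra (FractionRing (AddMonoidAlgebra K ι)) (ℤ × ℤ)) ∈
            (M.wr c l).alg.map Φ) ?_ ?_ ?_ F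
        · intro n
          have h1 : (Φ₀ ((0 : M.alg) : AddMonoidAlgebra K ι)).coeff n = 0 := by
            rw [ZeroMemClass.coe_zero, map_zero]; rfl
          rw [h1, single_zero]
          exact Subalgebra.zero_mem _
        · intro F G hF hG n
          have h1 : (Φ₀ ((F + G : M.alg) : AddMonoidAlgebra K ι)).coeff n =
              (Φ₀ (F : AddMonoidAlgebra K ι)).coeff n + (Φ₀ (G : AddMonoidAlgebra K ι)).coeff n := by
            rw [AddMemClass.coe_add, map_add]; rfl
          rw [h1, single_add]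
          exact Subalgebra.add_mem _ (hF n) (hG n)
        · intro a x hx n
          rw [coe_el, hΦ₀, sharpHom_single, AddMonoidAlgebra.coeff_single]
          by_cases hn : c a = n
          · rw [← hn, Finsupp.single_eq_same]
            refine ⟨single (a, c a / l) x, single_mem_alg.2 (M.wr_gen c l hx), ?_⟩
            exact hgen hx
          · rw [Finsupp.single_eq_of_ne' hn, single_zero]
            exact Subalgebra.zero_mem _
      have h1 := key ⟨F, hF⟩ n
      change (single (n % l, n / l) ((Φ₀ F).coeff n) : AddMonoidAlgebra _ (ℤ × ℤ)) ∈ _ at h1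
      have h2 : Φ₀ F = single n z := hz
      rw [h2, AddMonoidAlgebra.coeff_single, Finsupp.single_eq_same] at h1
      exact h1
    · rw [Set.mem_singleton_iff] at hF
      rw [hF]
      exact ⟨single (0, 1) 1, single_mem_alg.2 (M.wr_one c l), hone⟩
  · rw [wr_alg, AlgHom.map_adjoin, Algebra.adjoin_le_iff]
    rintro _ ⟨F, (⟨d, x, hx, rfl⟩ | hF), rfl⟩
    · have h1 : (algebraMap (AddMonoidAlgebra K ι) (FractionRing (AddMonoidAlgebra K ι))
          (single d x)) ∈ (M.sharp (AddMonoidHom.id ι) c).s (c d) := mem_sharp hx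
      have h2 := single_mem_alg.2 ((M.sharp (AddMonoidHom.id ι) c).wrees_gen l h1)
      rw [← hgen hx] at h2
      exact h2
    · rw [Set.mem_singleton_iff] at hF
      rw [hF]
      have h2 := single_mem_alg.2 ((M.sharp (AddMonoidHom.id ι) c).wrees_s l)
      rw [← hone] at h2
      exact h2

/-- The weighted Rees algebra of a smooth family is smooth. -/
theorem wr_smooth (hl : 0 < l) (hfg : M.alg.FG) (hsm : Algebra.FormallySmooth k M.alg) :
    Algebra.FormallySmooth k (M.wr c l).alg := by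
  have h1 := M.sharp_fg (AddMonoidHom.id ι) c hfg
  have h2 := M.sharp_smooth (AddMonoidHom.id ι) c (fun a b h _ => h) hsm
  have h3 := (M.sharp (AddMonoidHom.id ι) c).formallySmooth_wrees l hl h1 h2
  rw [sharp_wrees_alg] at h3
  have hinj : ∀ a b : ι × ℤ, AddMonoidHom.fst ι ℤ a = AddMonoidHom.fst ι ℤ b →
      wdeg c l a = wdeg c l b → a = b := by
    rintro ⟨a, m⟩ ⟨b, n⟩ h h'
    rw [wdeg_apply, wdeg_apply, Prod.ext_iff] at h'
    exact Prod.ext h h'.2
  let e := (M.wr c l).alg.equivMapOfInjective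
    (sharpHom k (AddMonoidHom.fst ι ℤ) (wdeg c l)) (sharpHom_injective _ _ hinj)
  exact Algebra.FormallySmooth.of_equiv
    (A := (M.wr c l).alg.map (sharpHom k (AddMonoidHom.fst ι ℤ) (wdeg c l)))
    (B := (M.wr c l).alg) e.symm

end sharp

end Fam

end Pool.Agent.MP_b525bf_ag
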