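import Pool.Agent.Lib.MP_b525bf_ag_h52d.GP

/-!
The combinatorial lemma on semistability for blow-ups.
-/

namespace Pool.Agent.MP_b525bf_ag

open AddMonoidAlgebra

/-- A Diophantine statement which replaces the separation of convex cones: if `ρ` is large, and
`(ρ θ, C)` is a nonnegative rational combination of the vectors `(π (e i), c (e i))`, `i ∈ J`, then
`θ` is a nonnegative rational combination of the vectors `π (e i)` with `i ∈ J` and
`c (e i) = 0`. -/
theorem exists_comb {ι ι'' : Type} [AddCommGroup ι] [AddCommGroup ι''] {r : ℕ} (e : Fin r → ι'')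
    (π : ι'' →+ ι) (c : ι'' →+ ℤ) (hc : ∀ i, 0 ≤ c (e i)) (θ : ι) (C : ℕ) :
    ∃ ρ₀ : ℕ, ∀ ρ : ℕ, ρ₀ ≤ ρ → ∀ (J : Set (Fin r)) (n : ℕ), 0 < n → ∀ α : Fin r → ℕ,
      (∀ i, α i ≠ 0 → i ∈ J) → ∑ i, α i • π (e i) = (n * ρ) • θ →
      ∑ i, (α i : ℤ) * c (e i) = n * C →
      ∃ β : Fin r → ℕ, (∀ i, β i ≠ 0 → i ∈ J ∧ c (e i) = 0) ∧
        ∃ m : ℕ, 0 < m ∧ ∑ i, β i • π (e i) = m • θ := by
  classical
  let φ : (Option (Fin r) → ℕ) →+ ι :=
    { toFun := fun α => ∑ i, α (some i) • π (e i) - α none • θ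
      map_zero' := by simp
      map_add' := by
        intro α β
        simp only [Pi.add_apply, add_nsmul, Finset.sum_add_distrib]
        abel }
  let P : AddSubmonoid (Option (Fin r) → ℕ) := AddMonoidHom.mker φ
  have hP : P.FG := by
    apply AddSubmonoid.fg_of_subtractive
    intro α hα β hαβ
    rw [AddMonoidHom.mem_mker] at *
    rw [map_add, hα, zero_add] at hαβ
    exact hαβ
  obtain ⟨S, hS⟩ := hP
  set m₁ : ℕ := ∑ g ∈ S, g none with hm₁
  refine ⟨m₁ * C + 1, fun ρ hρ J n hn α hαJ hα1 hα2 => ?_⟩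
  by_contra hcon
  push Not at hcon
  -- the relation
  let a : Option (Fin r) → ℕ := fun o => o.elim (n * ρ) α
  have ha : a ∈ AddSubmonoid.closure (S : Set (Option (Fin r) → ℕ)) := by
    rw [hS]
    change φ a = 0
    change ∑ i, α i • π (e i) - (n * ρ) • θ = 0
    rw [hα1, sub_self]
  have key : ∀ b ∈ AddSubmonoid.closure (S : Set (Option (Fin r) → ℕ)),
      (∀ i, b (some i) ≠ 0 → i ∈ J) → (b none : ℤ) ≤ m₁ * ∑ i, (b (some i) : ℤ) * c (e i) := by
    intro b hb
    induction hb using AddSubmonoid.closure_induction with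
    | mem g hg =>
      intro hgJ
      have hgP : g ∈ P := hS ▸ AddSubmonoid.subset_closure hg
      have hg1 : ∑ i, g (some i) • π (e i) = g none • θ := by
        have : ∑ i, g (some i) • π (e i) - g none • θ = 0 := hgP
        exact sub_eq_zero.1 this
      have hg2 : g none ≤ m₁ := Finset.single_le_sum (f := fun g : Option (Fin r) → ℕ => g none)
        (fun _ _ => Nat.zero_le _) hg
      have hnn : 0 ≤ ∑ i, (g (some i) : ℤ) * c (e i) :=
        Finset.sum_nonneg fun i _ => mul_nonneg (by positivity) (hc i)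
      by_cases h0 : g none = 0
      · rw [h0]
        have : (0 : ℤ) ≤ m₁ * ∑ i, (g (some i) : ℤ) * c (e i) := mul_nonneg (by positivity) hnn
        simpa using this
      · have h1 : ∃ i, g (some i) ≠ 0 ∧ c (e i) ≠ 0 := by
          by_contra h2
          push Not at h2
          exact hcon (fun i => g (some i)) (fun i hi => ⟨hgJ i hi, h2 i hi⟩) (g none)
            (Nat.pos_of_ne_zero h0) hg1
        obtain ⟨i, hi, hi'⟩ := h1
        have h2 : (1 : ℤ) ≤ ∑ i, (g (some i) : ℤ) * c (e i) := by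
          have h3 : (g (some i) : ℤ) * c (e i) ≤ ∑ i, (g (some i) : ℤ) * c (e i) :=
            Finset.single_le_sum (f := fun i => (g (some i) : ℤ) * c (e i))
              (fun j _ => mul_nonneg (by positivity) (hc j)) (Finset.mem_univ i)
          have h4 : (1 : ℤ) ≤ g (some i) := by
            have := Nat.pos_of_ne_zero hi
            exact_mod_cast this
          have h5 : (1 : ℤ) ≤ c (e i) := by
            have := hc i
            omega
          nlinarith
        have h3 : (g none : ℤ) ≤ m₁ := by exact_mod_cast hg2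
        have h4 : (0 : ℤ) ≤ m₁ := by positivity
        nlinarith
    | zero => intro _; simp
    | add b b' _ _ h1 h2 =>
      intro hJ
      have h3 := h1 (fun i hi => hJ i (by simp only [Pi.add_apply]; omega))
      have h4 := h2 (fun i hi => hJ i (by simp only [Pi.add_apply]; omega))
      have e1 : ∑ i, (((b + b') (some i) : ℕ) : ℤ) * c (e i) =
          ∑ i, (b (some i) : ℤ) * c (e i) + ∑ i, (b' (some i) : ℤ) * c (e i) := by
        rw [← Finset.sum_add_distrib]
        refine Finset.sum_congr rfl fun i _ => ?_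
        rw [Pi.add_apply]; push_cast; ring
      rw [e1, Pi.add_apply]
      push_cast
      rw [mul_add]
      omega
  have h1 := key a ha (fun i hi => hαJ i hi)
  change ((n * ρ : ℕ) : ℤ) ≤ m₁ * ∑ i, (α i : ℤ) * c (e i) at h1
  rw [hα2] at h1
  have h2 : (n : ℤ) * ρ ≤ n * (m₁ * C) := by push_cast at h1; linarith
  have h3 : (ρ : ℤ) ≤ m₁ * C := le_of_mul_le_mul_left h2 (by exact_mod_cast hn)
  have h4 : ((m₁ * C + 1 : ℕ) : ℤ) ≤ ρ := by exact_mod_cast hρ
  push_cast at h4
  omega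

variable {k K ι ι'' : Type} [Field k] [Field K] [Algebra k K] [AddCommGroup ι] [AddCommGroup ι'']

/-- Semistable graded primes of a blow-up lie over semistable graded primes, and do not contain all
the new generators. -/
theorem GP.exists_semi {r : ℕ} (e : Fin r → ι'') (y : Fin r → K)
    (π : ι'' →+ ι) (c : ι'' →+ ℤ) (e₀ : ι'') (hπ₀ : π e₀ = 0) (hc₀ : c e₀ < 0)
    (hc : ∀ i, 0 ≤ c (e i)) (θ : ι) (C : ℕ) (hC : 0 < C) :
    ∃ ρ₀ : ℕ, ∀ ρ : ℕ, ρ₀ ≤ ρ → ∀ (M : Fam k K ι) (E : Fam k K ι'')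
      (_ : ∀ i, y i ∈ E.s (e i)) (_ : (1 : K) ∈ E.s e₀) (_ : ∀ i, y i ∈ M.s (π (e i)))
      (_ : E.alg = Algebra.adjoin k (insert (single e₀ 1)
        (Set.range fun i => (single (e i) (y i) : AddMonoidAlgebra K ι''))))
      (P' : GP E) (P : GP M)
      (_ : (1 : K) ∉ P'.I e₀ → ∀ i, y i ∉ P'.I (e i) → y i ∉ P.I (π (e i)))
      (_ : ∀ i, c (e i) = 0 → y i ∉ P'.I (e i) → y i ∉ P.I (π (e i)))
      (θ' : ι'') (_ : π θ' = ρ • θ) (_ : c θ' = C) (_ : P'.Semi θ'),
      P.Semi θ ∧ ∃ i, 0 < c (e i) ∧ y i ∉ P'.I (e i) := by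
  classical
  obtain ⟨ρ₀, hρ₀⟩ := exists_comb e π c hc θ C
  refine ⟨ρ₀ + 1, fun ρ hρ M E hy h1 hyM hgen P' P hs hz θ' hθ hθ' hsemi => ?_⟩
  obtain ⟨n, hn, hdeg⟩ := hsemi
  -- all generators
  let e' : Fin (r + 1) → ι'' := Fin.cons e₀ e
  let y' : Fin (r + 1) → K := Fin.cons 1 y
  have hy' : ∀ i, y' i ∈ E.s (e' i) := by
    intro i
    refine Fin.cases ?_ ?_ i
    · exact h1
    · exact hy
  have hgen' : E.alg = Algebra.adjoin k
      (Set.range fun i => (single (e' i) (y' i) : AddMonoidAlgebra K ι'')) := by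
    rw [hgen]
    congr 1
    ext F
    simp only [Set.mem_insert_iff, Set.mem_range]
    constructor
    · rintro (rfl | ⟨i, rfl⟩)
      · exact ⟨0, rfl⟩
      · exact ⟨i.succ, rfl⟩
    · rintro ⟨i, rfl⟩
      refine Fin.cases ?_ ?_ i
      · exact Or.inl rfl
      · intro j; exact Or.inr ⟨j, rfl⟩
  obtain ⟨α, hα, hα'⟩ := P'.exists_mon hy' hgen' hdeg
  rw [Fin.sum_univ_succ] at hα
  have hαs : ∀ i : Fin r, α i.succ ≠ 0 → y i ∉ P'.I (e i) := fun i hi => hα' i.succ hi
  have hα0 : α 0 ≠ 0 → (1 : K) ∉ P'.I e₀ := fun h => hα' 0 h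
  have hα2 : α 0 • e₀ + ∑ i : Fin r, α i.succ • e i = n • θ' := hα
  have hπα : ∑ i : Fin r, α i.succ • π (e i) = (n * ρ) • θ := by
    have := congrArg π hα2
    rw [map_add, map_nsmul, hπ₀, smul_zero, zero_add, map_sum, map_nsmul, hθ, ← mul_nsmul'] at this
    simpa only [map_nsmul] using this
  have hcα : ((α 0 : ℕ) : ℤ) * c e₀ + ∑ i : Fin r, (α i.succ : ℤ) * c (e i) = n * C := by
    have := congrArg c hα2
    rw [map_add, map_nsmul, map_sum, map_nsmul, hθ'] at this
    simpa only [map_nsmul, nsmul_eq_mul] using this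
  have hρ1 : 0 < ρ := by omega
  have hpos : 0 < ∑ i : Fin r, (α i.succ : ℤ) * c (e i) := by
    have h2 : (0 : ℤ) < n * C := by positivity
    have h3 : ((α 0 : ℕ) : ℤ) * c e₀ ≤ 0 := mul_nonpos_of_nonneg_of_nonpos (by positivity) hc₀.le
    linarith
  obtain ⟨i, -, hi⟩ := Finset.exists_lt_of_sum_lt (s := Finset.univ) (f := fun _ : Fin r => (0 : ℤ))
    (g := fun i : Fin r => (α i.succ : ℤ) * c (e i)) (by simpa using hpos)
  have hi1 : α i.succ ≠ 0 := by
    intro h0; rw [h0] at hi; simp at hi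
  have hi2 : 0 < c (e i) := by
    by_contra h0
    have := hc i
    have h4 : c (e i) = 0 := by omega
    rw [h4] at hi; simp at hi
  refine ⟨?_, i, hi2, hαs i hi1⟩
  by_cases hs0 : (1 : K) ∉ P'.I e₀
  · refine ⟨n * ρ, by positivity, ∏ i, y i ^ α i.succ, ?_, ?_⟩
    · rw [← hπα]; exact M.prod_mem hyM _
    · rw [← hπα]
      exact P.prod_notMem hyM _ fun i hi => hs hs0 i (hαs i hi)
  · have h00 : α 0 = 0 := by
      by_contra h; exact hs0 (hα0 h)
    rw [h00, Nat.cast_zero, zero_mul, zero_add] at hcα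
    obtain ⟨β, hβ, m, hm, hβm⟩ := hρ₀ ρ (by omega) {i | y i ∉ P'.I (e i)} n hn
      (fun i => α i.succ) hαs hπα hcα
    refine ⟨m, hm, ∏ i, y i ^ β i, ?_, ?_⟩
    · rw [← hβm]; exact M.prod_mem hyM _
    · rw [← hβm]
      exact P.prod_notMem hyM _ fun i hi => hz i (hβ i hi).2 (hβ i hi).1

end Pool.Agent.MP_b525bf_ag
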