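import Pool.Agent.Lib.MP_b525bf_ag.FamLoc
import Pool.Agent.Lib.MP_b525bf_ag_helper12.FG

/-!
Graded primes of multigraded families, the degrees of homogeneous elements outside them, and
semistable graded primes.
-/

namespace Pool.Agent.MP_b525bf_ag

open AddMonoidAlgebra

variable {k K ι ι' : Type} [Field k] [Field K] [Algebra k K] [AddCommGroup ι] [AddCommGroup ι']

/-- A graded prime ideal of the family `M`. -/
structure GP (M : Fam k K ι) where
  I : ι → Submodule k K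
  le' : ∀ a, I a ≤ M.s a
  mul' : ∀ {a b : ι} {x y : K}, x ∈ M.s a → y ∈ I b → x * y ∈ I (a + b)
  one' : (1 : K) ∉ I 0
  prime' : ∀ {a b : ι} {x y : K}, x ∈ M.s a → y ∈ M.s b → x * y ∈ I (a + b) → x ∈ I a ∨ y ∈ I b

namespace GP

variable {M : Fam k K ι}

lemma mul_left' (P : GP M) {a b : ι} {x y : K} (hx : x ∈ P.I a) (hy : y ∈ M.s b) :
    x * y ∈ P.I (a + b) := by
  rw [mul_comm, add_comm]; exact P.mul' hy hx

lemma mul_notMem (P : GP M) {a b : ι} {x y : K} (hx : x ∈ M.s a) (hx' : x ∉ P.I a)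
    (hy : y ∈ M.s b) (hy' : y ∉ P.I b) : x * y ∉ P.I (a + b) := fun h =>
  (P.prime' hx hy h).elim hx' hy'

lemma pow_notMem (P : GP M) {a : ι} {x : K} (hx : x ∈ M.s a) (hx' : x ∉ P.I a) (n : ℕ) :
    x ^ n ∉ P.I (n • a) := by
  induction n with
  | zero => simpa using P.one'
  | succ n ih => rw [pow_succ, succ_nsmul]; exact P.mul_notMem (M.pow' hx n) ih hx hx'

lemma of_pow_notMem (P : GP M) {a : ι} {x : K} (hx : x ∈ M.s a) {n : ℕ} (hn : 0 < n)
    (h : x ^ n ∉ P.I (n • a)) : x ∉ P.I a := by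
  intro hx'
  obtain ⟨m, rfl⟩ := Nat.exists_eq_add_of_lt hn
  rw [zero_add, pow_succ, succ_nsmul] at h
  exact h (P.mul' (M.pow' hx m) hx')

lemma ne_zero_of_notMem (P : GP M) {a : ι} {x : K} (hx : x ∉ P.I a) : x ≠ 0 := by
  rintro rfl; exact hx (Submodule.zero_mem _)

/-- The graded prime given by a prime ideal. -/
noncomputable def ofIdeal (M : Fam k K ι) (Q : Ideal M.alg) [hQ : Q.IsPrime] : GP M where
  I a :=
    { carrier := {x | ∃ hx : x ∈ M.s a, M.el hx ∈ Q}
      add_mem' := by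
        rintro x y ⟨hx, hx'⟩ ⟨hy, hy'⟩
        refine ⟨Submodule.add_mem _ hx hy, ?_⟩
        have : M.el (Submodule.add_mem _ hx hy) = M.el hx + M.el hy :=
          Subtype.ext (single_add _ _ _)
        rw [this]
        exact Ideal.add_mem _ hx' hy'
      zero_mem' := by
        refine ⟨Submodule.zero_mem _, ?_⟩
        have : M.el (Submodule.zero_mem (M.s a)) = 0 := Subtype.ext (by simp)
        rw [this]
        exact Ideal.zero_mem _
      smul_mem' := by
        rintro c x ⟨hx, hx'⟩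
        refine ⟨Submodule.smul_mem _ c hx, ?_⟩
        have : M.el (Submodule.smul_mem _ c hx) = c • M.el hx :=
          Subtype.ext (by simp [smul_single])
        rw [this]
        exact Submodule.smul_of_tower_mem Q c hx' }
  le' := by rintro a x ⟨hx, -⟩; exact hx
  mul' := by
    rintro a b x y hx ⟨hy, hy'⟩
    refine ⟨M.mul' hx hy, ?_⟩
    rw [← M.el_mul hx hy]
    exact Ideal.mul_mem_left _ _ hy'
  one' := by
    rintro ⟨h, h'⟩
    exact (Ideal.ne_top_iff_one Q).1 hQ.ne_top h'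
  prime' := by
    rintro a b x y hx hy ⟨h, h'⟩
    rw [← M.el_mul hx hy] at h'
    rcases hQ.mem_or_mem h' with h1 | h1
    · exact Or.inl ⟨hx, h1⟩
    · exact Or.inr ⟨hy, h1⟩

lemma mem_ofIdeal {Q : Ideal M.alg} [Q.IsPrime] {a : ι} {x : K} (hx : x ∈ M.s a) :
    x ∈ (ofIdeal M Q).I a ↔ M.el hx ∈ Q := ⟨fun h => h.2, fun h => ⟨hx, h⟩⟩

/-- Every graded prime comes from a prime ideal. -/
theorem exists_ideal (P : GP M) : ∃ Q : Ideal M.alg, Q.IsPrime ∧
    ∀ (a : ι) (x : K) (hx : x ∈ M.s a), M.el hx ∈ Q ↔ x ∈ P.I a := by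
  classical
  let J : Ideal M.alg :=
    { carrier := {F | ∀ a, (F : AddMonoidAlgebra K ι).coeff a ∈ P.I a}
      add_mem' := by
        intro F G hF hG a
        exact Submodule.add_mem _ (hF a) (hG a)
      zero_mem' := fun a => Submodule.zero_mem _
      smul_mem' := by
        intro F G hG a
        change ((F : AddMonoidAlgebra K ι) * (G : AddMonoidAlgebra K ι)).coeff a ∈ P.I a
        rw [AddMonoidAlgebra.coeff_mul]
        refine Submodule.sum_mem _ fun b _ => Submodule.sum_mem _ fun c _ => ?_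
        dsimp only
        split_ifs with h
        · rw [← h]; exact P.mul' (F.2 b) (hG c)
        · exact Submodule.zero_mem _ }
  let S : Submonoid M.alg :=
    { carrier := {F | ∃ (a : ι) (x : K) (hx : x ∈ M.s a), x ∉ P.I a ∧ F = M.el hx}
      one_mem' := ⟨0, 1, M.one', P.one', (M.el_one).symm⟩
      mul_mem' := by
        rintro _ _ ⟨a, x, hx, hx', rfl⟩ ⟨b, y, hy, hy', rfl⟩
        exact ⟨a + b, x * y, M.mul' hx hy, P.mul_notMem hx hx' hy hy', M.el_mul hx hy⟩ }
  have hdisj : Disjoint (J : Set M.alg) (S : Set M.alg) := by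
    rw [Set.disjoint_left]
    rintro F hF ⟨a, x, hx, hx', rfl⟩
    have := hF a
    rw [Fam.coe_el] at this
    exact hx' (by simpa using this)
  obtain ⟨Q, hQ, hJQ, hQS⟩ := Ideal.exists_le_prime_disjoint J S hdisj
  refine ⟨Q, hQ, fun a x hx => ⟨fun h => ?_, fun h => hJQ ?_⟩⟩
  · by_contra hx'
    exact Set.disjoint_left.1 hQS h ⟨a, x, hx, hx', rfl⟩
  · intro b
    rw [Fam.coe_el, AddMonoidAlgebra.coeff_single, Finsupp.single_apply]
    split_ifs with hb
    · rw [← hb]; exact h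
    · exact Submodule.zero_mem _

/-- The degrees of homogeneous elements outside a graded prime. -/
def degs (P : GP M) : AddSubmonoid ι where
  carrier := {a | ∃ x ∈ M.s a, x ∉ P.I a}
  zero_mem' := ⟨1, M.one', P.one'⟩
  add_mem' := by
    rintro a b ⟨x, hx, hx'⟩ ⟨y, hy, hy'⟩
    exact ⟨x * y, M.mul' hx hy, P.mul_notMem hx hx' hy hy'⟩

lemma mem_degs {P : GP M} {a : ι} : a ∈ P.degs ↔ ∃ x ∈ M.s a, x ∉ P.I a := Iff.rfl

/-- The group generated by the degrees of homogeneous elements outside a graded prime. -/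
def grp (P : GP M) : AddSubgroup ι where
  carrier := {l | ∃ l' ∈ P.degs, l + l' ∈ P.degs}
  zero_mem' := ⟨0, zero_mem _, by rw [zero_add]; exact zero_mem _⟩
  add_mem' := by
    rintro a b ⟨a', ha, ha'⟩ ⟨b', hb, hb'⟩
    refine ⟨a' + b', add_mem ha hb, ?_⟩
    rw [add_add_add_comm]
    exact add_mem ha' hb'
  neg_mem' := by
    rintro a ⟨a', ha, ha'⟩
    exact ⟨a + a', ha', by rw [neg_add_cancel_left]; exact ha⟩

lemma mem_grp {P : GP M} {l : ι} : l ∈ P.grp ↔ ∃ l' ∈ P.degs, l + l' ∈ P.degs := Iff.rfl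

lemma degs_le_grp (P : GP M) {l : ι} (hl : l ∈ P.degs) : l ∈ P.grp :=
  ⟨0, zero_mem _, by rwa [add_zero]⟩

lemma grp_le (P : GP M) {H : AddSubgroup ι} (h : ∀ a ∈ P.degs, a ∈ H) : P.grp ≤ H := by
  rintro l ⟨l', h1, h2⟩
  have := H.sub_mem (h _ h2) (h _ h1)
  rwa [add_sub_cancel_right] at this

/-- Semistable graded primes. -/
def Semi (P : GP M) (θ : ι) : Prop := ∃ n : ℕ, 0 < n ∧ n • θ ∈ P.degs

/-- A homogeneous element outside a graded prime contains a monomial in the generators outside it. -/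
lemma exists_mon (P : GP M) {r : ℕ} {d : Fin r → ι} {x : Fin r → K} (hx : ∀ i, x i ∈ M.s (d i))
    (hM : M.alg = Algebra.adjoin k
      (Set.range fun i => (single (d i) (x i) : AddMonoidAlgebra K ι))) {a : ι}
    (ha : a ∈ P.degs) : ∃ α : Fin r → ℕ, ∑ i, α i • d i = a ∧ ∀ i, α i ≠ 0 → x i ∉ P.I (d i) := by
  classical
  by_contra hcon
  push Not at hcon
  obtain ⟨z, hz, hz'⟩ := ha
  apply hz'
  have h1 := M.s_le_mon hM a hz
  refine (Submodule.span_le (p := P.I a)).2 ?_ h1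
  rintro _ ⟨α, hα, rfl⟩
  obtain ⟨i, hi, hxi⟩ := hcon α hα
  obtain ⟨m, hm⟩ := Nat.exists_eq_succ_of_ne_zero hi
  have h2 : ∏ j, x j ^ α j = (∏ j, x j ^ (α j - (Pi.single i 1 : Fin r → ℕ) j)) * x i := by
    rw [← Finset.mul_prod_erase Finset.univ _ (Finset.mem_univ i),
      ← Finset.mul_prod_erase Finset.univ (fun j => x j ^ (α j - (Pi.single i 1 : Fin r → ℕ) j))
        (Finset.mem_univ i)]
    rw [Pi.single_eq_same, hm, Nat.succ_sub_one, pow_succ]
    have h3 : ∏ j ∈ Finset.univ.erase i, x j ^ (α j - (Pi.single i 1 : Fin r → ℕ) j) =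
        ∏ j ∈ Finset.univ.erase i, x j ^ α j := by
      refine Finset.prod_congr rfl fun j hj => ?_
      rw [Pi.single_eq_of_ne (Finset.ne_of_mem_erase hj), Nat.sub_zero]
    rw [h3]; ring
  have h4 : a = ∑ j, (α j - (Pi.single i 1 : Fin r → ℕ) j) • d j + d i := by
    rw [← hα, ← Finset.add_sum_erase Finset.univ _ (Finset.mem_univ i),
      ← Finset.add_sum_erase Finset.univ (fun j => (α j - (Pi.single i 1 : Fin r → ℕ) j) • d j)
        (Finset.mem_univ i)]
    rw [Pi.single_eq_same, hm, Nat.succ_sub_one, succ_nsmul]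
    have h3 : ∑ j ∈ Finset.univ.erase i, (α j - (Pi.single i 1 : Fin r → ℕ) j) • d j =
        ∑ j ∈ Finset.univ.erase i, α j • d j := by
      refine Finset.sum_congr rfl fun j hj => ?_
      rw [Pi.single_eq_of_ne (Finset.ne_of_mem_erase hj), Nat.sub_zero]
    rw [h3]; abel
  rw [h2, h4]
  exact P.mul' (M.prod_mem hx _) hxi

lemma prod_notMem (P : GP M) {r : ℕ} {d : Fin r → ι} {x : Fin r → K} (hx : ∀ i, x i ∈ M.s (d i))
    (α : Fin r → ℕ) (h : ∀ i, α i ≠ 0 → x i ∉ P.I (d i)) :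
    ∏ i, x i ^ α i ∉ P.I (∑ i, α i • d i) := by
  classical
  have : ∀ s : Finset (Fin r), ∏ i ∈ s, x i ^ α i ∈ M.s (∑ i ∈ s, α i • d i) ∧
      ∏ i ∈ s, x i ^ α i ∉ P.I (∑ i ∈ s, α i • d i) := by
    intro s
    induction s using Finset.induction_on with
    | empty =>
      rw [Finset.prod_empty, Finset.sum_empty]
      exact ⟨M.one', P.one'⟩
    | insert i s hi ih =>
      rw [Finset.prod_insert hi, Finset.sum_insert hi]
      refine ⟨M.mul' (M.pow' (hx i) _) ih.1, P.mul_notMem (M.pow' (hx i) _) ?_ ih.1 ih.2⟩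
      by_cases h0 : α i = 0
      · rw [h0]; simpa using P.one'
      · exact P.pow_notMem (hx i) (h i h0) _
  exact (this _).2

lemma degs_eq_closure (P : GP M) {r : ℕ} {d : Fin r → ι} {x : Fin r → K}
    (hx : ∀ i, x i ∈ M.s (d i)) (hM : M.alg = Algebra.adjoin k
      (Set.range fun i => (single (d i) (x i) : AddMonoidAlgebra K ι))) :
    P.degs = AddSubmonoid.closure (d '' {i | x i ∉ P.I (d i)}) := by
  apply le_antisymm
  · intro a ha
    obtain ⟨α, rfl, hα⟩ := P.exists_mon hx hM ha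
    refine sum_mem fun i _ => ?_
    by_cases h0 : α i = 0
    · rw [h0, zero_nsmul]; exact zero_mem _
    · have h1 : d i ∈ AddSubmonoid.closure (d '' {i | x i ∉ P.I (d i)}) :=
        AddSubmonoid.subset_closure ⟨i, hα i h0, rfl⟩
      exact nsmul_mem h1 _
  · rw [AddSubmonoid.closure_le]
    rintro _ ⟨i, hi, rfl⟩
    exact ⟨x i, hx i, hi⟩

lemma grp_eq_closure (P : GP M) : P.grp = AddSubgroup.closure (P.degs : Set ι) := by
  apply le_antisymm
  · exact P.grp_le fun a ha => AddSubgroup.subset_closure ha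
  · rw [AddSubgroup.closure_le]
    intro a ha
    exact P.degs_le_grp ha

/-- Only finitely many groups occur. -/
theorem finite_grp (hfg : M.alg.FG) : {H : AddSubgroup ι | ∃ P : GP M, P.grp = H}.Finite := by
  classical
  obtain ⟨r, d, x, hx, hM⟩ := M.exists_gens hfg
  refine (Set.finite_range fun s : Finset (Fin r) =>
    AddSubgroup.closure (AddSubmonoid.closure (d '' (s : Set (Fin r))) : Set ι)).subset ?_
  rintro _ ⟨P, rfl⟩
  refine ⟨Finset.univ.filter fun i => x i ∉ P.I (d i), ?_⟩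
  dsimp only
  rw [P.grp_eq_closure, P.degs_eq_closure hx hM]
  congr
  ext i
  simp

/-- The graded prime cut out by a face of the monoid of degrees. -/
def face (P : GP M) (F : AddSubmonoid ι)
    (hface : ∀ a b, a ∈ P.degs → b ∈ P.degs → a + b ∈ F → b ∈ F) : GP M where
  I a :=
    { carrier := {x | x ∈ M.s a ∧ (a ∈ F → x ∈ P.I a)}
      add_mem' := fun hx hy => ⟨Submodule.add_mem _ hx.1 hy.1,
        fun h => Submodule.add_mem _ (hx.2 h) (hy.2 h)⟩
      zero_mem' := ⟨Submodule.zero_mem _, fun _ => Submodule.zero_mem _⟩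
      smul_mem' := fun c x hx => ⟨Submodule.smul_mem _ c hx.1,
        fun h => Submodule.smul_mem _ c (hx.2 h)⟩ }
  le' := fun a x hx => hx.1
  mul' := by
    rintro a b x y hx ⟨hy, hy'⟩
    refine ⟨M.mul' hx hy, fun hab => ?_⟩
    by_cases hb : b ∈ F
    · exact P.mul' hx (hy' hb)
    · by_contra hxy
      have hx' : x ∉ P.I a := fun h => hxy (P.mul_left' h hy)
      have hy'' : y ∉ P.I b := fun h => hxy (P.mul' hx h)
      exact hb (hface a b ⟨x, hx, hx'⟩ ⟨y, hy, hy''⟩ hab)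
  one' := fun h => P.one' (h.2 (zero_mem _))
  prime' := by
    rintro a b x y hx hy ⟨-, h⟩
    by_cases ha : a ∈ F
    · by_cases hb : b ∈ F
      · rcases P.prime' hx hy (h (add_mem ha hb)) with h1 | h1
        · exact Or.inl ⟨hx, fun _ => h1⟩
        · exact Or.inr ⟨hy, fun _ => h1⟩
      · exact Or.inr ⟨hy, fun h => absurd h hb⟩
    · exact Or.inl ⟨hx, fun h => absurd h ha⟩

/-- If all semistable graded primes have finite stabilisers, then the degrees of the homogeneous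
elements outside a semistable graded prime form a group modulo `θ`. -/
theorem exists_compl (θ : ι) (hfin : ∀ P : GP M, P.Semi θ → P.grp.index ≠ 0) (P : GP M)
    (hP : P.Semi θ) {l : ι} (hl : l ∈ P.degs) :
    ∃ l' ∈ P.degs, ∃ n : ℕ, 0 < n ∧ l + l' = n • θ := by
  let F : AddSubmonoid ι :=
    { carrier := {a | a ∈ P.degs ∧ ∃ b ∈ P.degs, ∃ n : ℕ, 0 < n ∧ a + b = n • θ}
      zero_mem' := by
        obtain ⟨n, hn, h⟩ := hP
        exact ⟨zero_mem _, n • θ, h, n, hn, zero_add _⟩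
      add_mem' := by
        rintro a b ⟨ha, a', ha', n, hn, h⟩ ⟨hb, b', hb', m, hm, h'⟩
        refine ⟨add_mem ha hb, a' + b', add_mem ha' hb', n + m, by omega, ?_⟩
        rw [add_add_add_comm, h, h', add_nsmul] }
  have hface : ∀ a b, a ∈ P.degs → b ∈ P.degs → a + b ∈ F → b ∈ F := by
    rintro a b ha hb ⟨-, c, hc, n, hn, h⟩
    refine ⟨hb, a + c, add_mem ha hc, n, hn, ?_⟩
    rw [← h]; abel
  have hdegs : ∀ a, a ∈ (P.face F hface).degs → a ∈ F := by
    rintro a ⟨x, hx, hx'⟩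
    by_contra ha
    exact hx' ⟨hx, fun h => absurd h ha⟩
  have hsemi : (P.face F hface).Semi θ := by
    obtain ⟨n, hn, x, hx, hx'⟩ := hP
    refine ⟨n, hn, x, hx, fun h => hx' (h.2 ?_)⟩
    refine ⟨⟨x, hx, hx'⟩, n • θ, ⟨x, hx, hx'⟩, n + n, by omega, ?_⟩
    rw [add_nsmul]
  obtain ⟨N, hN, -, hNl⟩ := AddSubgroup.exists_nsmul_mem_of_index_ne_zero (hfin _ hsemi) l
  obtain ⟨f, hf, hf'⟩ := hNl
  obtain ⟨-, b, hb, n, hn, h⟩ := hdegs _ hf'
  have hf0 := (hdegs _ hf).1
  refine ⟨(N - 1) • l + f + b, add_mem (add_mem (nsmul_mem hl _) hf0) hb, n, hn, ?_⟩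
  rw [← h]
  have h1 : N • l = l + (N - 1) • l := by
    rw [← succ_nsmul']; congr 1; omega
  rw [h1]; abel

end GP

end Pool.Agent.MP_b525bf_ag
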