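import Pool.Agent.Lib.MP_b525bf_ag.WRees
import Pool.Agent.Lib.MP_b525bf_ag_helper12.URees

/-!
Changing the field: a family over `K` graded by `ι` becomes a family over the fraction field of
`K[ι]` graded by a smaller group.
-/

namespace Pool.Agent.MP_b525bf_ag

open AddMonoidAlgebra

variable {k K ι ι₁ ι₂ : Type} [Field k] [Field K] [Algebra k K] [AddCommGroup ι] [AddCommGroup ι₁]
  [AddCommGroup ι₂]

lemma ama_induction {R : Type} [Semiring R] {p : AddMonoidAlgebra R ι → Prop} (h0 : p 0)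
    (hadd : ∀ F G, p F → p G → p (F + G)) (hs : ∀ (a : ι) (x : R), p (single a x))
    (F : AddMonoidAlgebra R ι) : p F := by
  have key : F = ∑ a ∈ F.coeff.support, single a (F.coeff a) := by
    conv_lhs => rw [← AddMonoidAlgebra.sum_coeff_single F]
    rfl
  rw [key]
  exact Finset.sum_induction _ p hadd h0 fun a _ => hs a _

section

variable [IsDomain (AddMonoidAlgebra K ι)]

/-- The monoid homomorphism defining `sharpHom`. -/
noncomputable def sharpMon (g : ι₁ →+ ι) (h : ι₁ →+ ι₂) :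
    Multiplicative ι₁ →* AddMonoidAlgebra (FractionRing (AddMonoidAlgebra K ι)) ι₂ where
  toFun a := single (h a.toAdd) (algebraMap (AddMonoidAlgebra K ι) _ (single (g a.toAdd) 1))
  map_one' := by
    rw [toAdd_one, map_zero, map_zero]
    change single 0 (algebraMap (AddMonoidAlgebra K ι) _ 1) = 1
    rw [map_one]; rfl
  map_mul' a b := by
    rw [single_mul_single, ← map_mul, single_mul_single, one_mul, toAdd_mul, map_add, map_add]

/-- The homomorphism `x T ^ a ↦ (x t ^ (g a)) T ^ (h a)`. -/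
noncomputable def sharpHom (k : Type) [Field k] [Algebra k K] (g : ι₁ →+ ι) (h : ι₁ →+ ι₂) :
    AddMonoidAlgebra K ι₁ →ₐ[k] AddMonoidAlgebra (FractionRing (AddMonoidAlgebra K ι)) ι₂ :=
  (AddMonoidAlgebra.lift K _ ι₁ (sharpMon g h)).restrictScalars k

omit [IsDomain (AddMonoidAlgebra K ι)] in
lemma sharpHom_single (g : ι₁ →+ ι) (h : ι₁ →+ ι₂) (a : ι₁) (x : K) :
    sharpHom k g h (single a x) =
      single (h a) (algebraMap (AddMonoidAlgebra K ι) _ (single (g a) x)) := by
  change AddMonoidAlgebra.lift K _ ι₁ (sharpMon g h) (single a x) = _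
  rw [lift_single]
  change x • single (h a) (algebraMap (AddMonoidAlgebra K ι) _ (single (g a) 1)) = _
  rw [smul_single]
  congr 1
  rw [Algebra.smul_def, IsScalarTower.algebraMap_apply K (AddMonoidAlgebra K ι)
    (FractionRing (AddMonoidAlgebra K ι)), ← map_mul]
  congr 1
  rw [← Algebra.smul_def, smul_single, smul_eq_mul, mul_one]

omit [IsDomain (AddMonoidAlgebra K ι)] in
lemma sharpHom_coeff (g : ι₁ →+ ι) (h : ι₁ →+ ι₂)
    (hinj : ∀ a b, g a = g b → h a = h b → a = b) (F : AddMonoidAlgebra K ι₁) :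
    ∃ G : ι₂ → AddMonoidAlgebra K ι, (∀ b, (sharpHom k g h F).coeff b = algebraMap _ _ (G b)) ∧
      ∀ a, (G (h a)).coeff (g a) = F.coeff a := by
  classical
  refine ama_induction (p := fun F => ∃ G : ι₂ → AddMonoidAlgebra K ι,
    (∀ b, (sharpHom k g h F).coeff b = algebraMap _ _ (G b)) ∧
      ∀ a, (G (h a)).coeff (g a) = F.coeff a) ?_ ?_ ?_ F
  · refine ⟨fun _ => 0, fun b => ?_, fun a => ?_⟩
    · rw [map_zero, map_zero]; rfl
    · rfl
  · rintro F F' ⟨G, h1, h2⟩ ⟨G', h1', h2'⟩
    refine ⟨G + G', fun b => ?_, fun a => ?_⟩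
    · rw [map_add, Pi.add_apply, map_add, ← h1, ← h1']; rfl
    · rw [Pi.add_apply]
      change (G (h a)).coeff (g a) + (G' (h a)).coeff (g a) = F.coeff a + F'.coeff a
      rw [h2, h2']
  · intro a x
    refine ⟨fun b => if h a = b then single (g a) x else 0, fun b => ?_, fun b => ?_⟩
    · rw [sharpHom_single, AddMonoidAlgebra.coeff_single, Finsupp.single_apply]
      by_cases hab : h a = b
      · simp only [hab, if_true]
      · simp only [hab, if_false, map_zero]
    · dsimp only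
      rw [AddMonoidAlgebra.coeff_single, Finsupp.single_apply]
      by_cases hab : a = b
      · rw [if_pos hab, hab, if_pos rfl, AddMonoidAlgebra.coeff_single, Finsupp.single_eq_same]
      · rw [if_neg hab]
        split_ifs with h1
        · rw [AddMonoidAlgebra.coeff_single, Finsupp.single_apply, if_neg]
          intro h2
          exact hab (hinj a b h2 h1)
        · rfl

lemma sharpHom_injective (g : ι₁ →+ ι) (h : ι₁ →+ ι₂)
    (hinj : ∀ a b, g a = g b → h a = h b → a = b) :
    Function.Injective (sharpHom (K := K) k g h) := by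
  rw [injective_iff_map_eq_zero]
  intro F hF
  obtain ⟨G, h1, h2⟩ := sharpHom_coeff (k := k) g h hinj F
  apply AddMonoidAlgebra.ext
  ext a
  rw [← h2 a]
  have h3 := h1 (h a)
  rw [hF] at h3
  have h4 : algebraMap (AddMonoidAlgebra K ι) (FractionRing (AddMonoidAlgebra K ι)) (G (h a)) =
      algebraMap (AddMonoidAlgebra K ι) (FractionRing (AddMonoidAlgebra K ι)) 0 := by
    rw [← h3, map_zero]; rfl
  rw [IsFractionRing.injective (AddMonoidAlgebra K ι) (FractionRing (AddMonoidAlgebra K ι)) h4]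
  rfl

end

namespace Fam

omit [AddCommGroup ι] in
lemma alg_eq_adjoin [AddCommGroup ι] (M : Fam k K ι) :
    M.alg = Algebra.adjoin k {F | ∃ a, ∃ x ∈ M.s a, F = single a x} := by
  apply le_antisymm
  · refine alg_le fun a x hx => Algebra.subset_adjoin ⟨a, x, hx, rfl⟩
  · refine Algebra.adjoin_le ?_
    rintro _ ⟨a, x, hx, rfl⟩
    exact single_mem_alg.2 hx

variable [IsDomain (AddMonoidAlgebra K ι)]

/-- The family over the larger field. -/
noncomputable def sharp (M : Fam k K ι₁) (g : ι₁ →+ ι) (h : ι₁ →+ ι₂) :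
    Fam k (FractionRing (AddMonoidAlgebra K ι)) ι₂ :=
  ofSub (M.alg.map (sharpHom k g h))

lemma sharp_alg (M : Fam k K ι₁) (g : ι₁ →+ ι) (h : ι₁ →+ ι₂) :
    (M.sharp g h).alg = M.alg.map (sharpHom k g h) := by
  unfold sharp
  rw [alg_eq_adjoin M, AlgHom.map_adjoin]
  apply ofSub_adjoin_alg
  rintro _ ⟨_, ⟨a, x, hx, rfl⟩, rfl⟩
  exact ⟨_, _, sharpHom_single (k := k) g h a x⟩

lemma mem_sharp {M : Fam k K ι₁} {g : ι₁ →+ ι} {h : ι₁ →+ ι₂} {a : ι₁} {x : K} (hx : x ∈ M.s a) :
    algebraMap (AddMonoidAlgebra K ι) _ (single (g a) x) ∈ (M.sharp g h).s (h a) := by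
  refine ⟨single a x, single_mem_alg.2 hx, ?_⟩
  exact sharpHom_single (k := k) g h a x

theorem sharp_smooth (M : Fam k K ι₁) (g : ι₁ →+ ι) (h : ι₁ →+ ι₂)
    (hinj : ∀ a b, g a = g b → h a = h b → a = b) (hsm : Algebra.FormallySmooth k M.alg) :
    Algebra.FormallySmooth k (M.sharp g h).alg := by
  rw [sharp_alg]
  exact Algebra.FormallySmooth.of_equiv
    (M.alg.equivMapOfInjective (sharpHom k g h) (sharpHom_injective g h hinj))

theorem sharp_fg (M : Fam k K ι₁) (g : ι₁ →+ ι) (h : ι₁ →+ ι₂) (hfg : M.alg.FG) :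
    (M.sharp g h).alg.FG := by
  rw [sharp_alg]
  exact hfg.map _

end Fam

end Pool.Agent.MP_b525bf_ag
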