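import Pool.Agent.Lib.MP_b525bf_ag_h52d.Comb
import Pool.Agent.Lib.MP_b525bf_ag_h52d.Wr

/-!
One step of the destackification of multigraded families.
-/

namespace Pool.Agent.MP_b525bf_ag

open AddMonoidAlgebra

variable {k K ι : Type} [Field k] [Field K] [Algebra k K] [AddCommGroup ι]

/-- The zero graded prime. -/
def GP.bot (M : Fam k K ι) : GP M where
  I _ := ⊥
  le' _ := bot_le
  mul' := by
    intro a b x y _ hy
    rw [Submodule.mem_bot] at hy ⊢
    rw [hy, mul_zero]
  one' := by rw [Submodule.mem_bot]; exact one_ne_zero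
  prime' := by
    intro a b x y _ _ h
    rw [Submodule.mem_bot, mul_eq_zero] at h
    exact h

/-- The inductive condition: smoothness at semistable points, and a bound for the order of the
stabilisers. -/
structure GoodI (M : Fam k K ι) (θ : ι) (w : ℕ) : Prop where
  fg : M.alg.FG
  smooth : ∀ n : ℕ, 0 < n → ∀ (x : K) (hx : x ∈ M.s (n • θ)), x ≠ 0 →
    Algebra.FormallySmooth k (M.loc hx).alg
  idx : ∀ P : GP M, P.Semi θ → P.grp.index ≠ 0 ∧ P.grp.index ≤ w
  neg : ∀ n : ℕ, (1 : K) ∈ M.s (-(n • θ))
  nontriv : (GP.bot M).Semi θ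
  gen : (GP.bot M).grp = ⊤

section contr

variable {M : Fam k K ι} {c : ι →+ ℤ} {l : ℕ}

lemma contr_le (hl : 0 < l) (a b : ι) : c a / l + c b / l ≤ c (a + b) / l := by
  have hl' : (0 : ℤ) < l := by exact_mod_cast hl
  rw [map_add, Int.le_ediv_iff_mul_le hl', add_mul]
  exact add_le_add (Int.ediv_mul_le _ hl'.ne') (Int.ediv_mul_le _ hl'.ne')

lemma contr_eq (hl : 0 < l) (a b : ι) : ((a + b, c (a + b) / l) : ι × ℤ) =
    (a, c a / l) + (b, c b / l) +
      (c (a + b) / l - (c a / l + c b / l)).toNat • ((0, 1) : ι × ℤ) := by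
  have h0 := contr_le (c := c) hl a b
  rw [Prod.ext_iff]
  constructor
  · simp
  · change c (a + b) / l = c a / l + c b / l +
      (c (a + b) / l - (c a / l + c b / l)).toNat • (1 : ℤ)
    rw [nsmul_eq_mul, Int.toNat_of_nonneg (by omega)]
    ring

/-- The contraction of a graded prime outside the exceptional divisor. -/
def contrA (hl : 0 < l) (P' : GP (M.wr c l)) (hs : (1 : K) ∉ P'.I (0, 1)) : GP M where
  I a := M.s a ⊓ P'.I (a, c a / l)
  le' a := inf_le_left
  mul' := by
    rintro a b x y hx ⟨hy, hy'⟩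
    refine ⟨M.mul' hx hy, ?_⟩
    have h1 := P'.mul' (M.wr_gen c l hx) hy'
    have h2 := P'.mul_left' h1 ((M.wr c l).pow' (M.wr_one c l)
      (c (a + b) / l - (c a / l + c b / l)).toNat)
    rw [one_pow, mul_one] at h2
    rw [SetLike.mem_coe, contr_eq hl]
    exact h2
  one' := by
    rintro ⟨-, h⟩
    apply P'.one'
    rw [map_zero, Int.zero_ediv] at h
    exact h
  prime' := by
    rintro a b x y hx hy ⟨-, h⟩
    by_contra hcon
    rw [not_or] at hcon
    have hx' : x ∉ P'.I (a, c a / l) := fun h' => hcon.1 ⟨hx, h'⟩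
    have hy' : y ∉ P'.I (b, c b / l) := fun h' => hcon.2 ⟨hy, h'⟩
    have h1 := P'.mul_notMem (M.wr_gen c l hx) hx' (M.wr_gen c l hy) hy'
    have h2 := P'.mul_notMem ((M.wr c l).mul' (M.wr_gen c l hx) (M.wr_gen c l hy)) h1
      ((M.wr c l).pow' (M.wr_one c l) (c (a + b) / l - (c a / l + c b / l)).toNat)
      (P'.pow_notMem (M.wr_one c l) hs _)
    rw [one_pow, mul_one] at h2
    rw [SetLike.mem_coe, contr_eq hl] at h
    exact h2 h

/-- The contraction of a graded prime on the exceptional divisor. -/
def contrB (hl : 0 < l) (P' : GP (M.wr c l)) (hs : (1 : K) ∈ P'.I (0, 1)) : GP M where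
  I a :=
    { carrier := {x | x ∈ M.s a ∧ ((l : ℤ) ∣ c a → x ∈ P'.I (a, c a / l))}
      add_mem' := fun hx hy => ⟨Submodule.add_mem _ hx.1 hy.1,
        fun h => Submodule.add_mem _ (hx.2 h) (hy.2 h)⟩
      zero_mem' := ⟨Submodule.zero_mem _, fun _ => Submodule.zero_mem _⟩
      smul_mem' := fun r x hx => ⟨Submodule.smul_mem _ r hx.1,
        fun h => Submodule.smul_mem _ r (hx.2 h)⟩ }
  le' a x hx := hx.1
  mul' := by
    rintro a b x y hx ⟨hy, hy'⟩
    refine ⟨M.mul' hx hy, fun hab => ?_⟩
    have hl' : (0 : ℤ) < l := by exact_mod_cast hl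
    by_cases hb : (l : ℤ) ∣ c b
    · have ha : (l : ℤ) ∣ c a := by
        have := dvd_sub hab hb
        rwa [map_add, add_sub_cancel_right] at this
      have h1 := P'.mul' (M.wr_gen c l hx) (hy' hb)
      convert h1 using 2
      rw [Prod.ext_iff]
      constructor
      · rfl
      · change c (a + b) / l = c a / l + c b / l
        rw [map_add, Int.add_ediv_of_dvd_left ha]
    · have h0 : c (a + b) / l = c a / l + c b / l + 1 := by
        have ha : ¬ (l : ℤ) ∣ c a := by
          intro ha
          apply hb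
          have := dvd_sub hab ha
          rwa [map_add, add_sub_cancel_left] at this
        rw [map_add]
        rw [map_add] at hab
        have e1 := Int.emod_add_mul_ediv (c a) l
        have e2 := Int.emod_add_mul_ediv (c b) l
        have r1 := Int.emod_nonneg (c a) hl'.ne'
        have r2 := Int.emod_nonneg (c b) hl'.ne'
        have r3 := Int.emod_lt_of_pos (c a) hl'
        have r4 := Int.emod_lt_of_pos (c b) hl'
        have r5 : c a % l ≠ 0 := fun h => ha (Int.dvd_of_emod_eq_zero h)
        obtain ⟨t, ht⟩ := hab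
        have h1 : c a % l + c b % l = l * (t - c a / l - c b / l) := by
          have : c a + c b = c a % l + c b % l + l * (c a / l + c b / l) := by linarith
          rw [ht] at this
          linarith
        have h2 : t - c a / l - c b / l = 1 := by
          have h3 : 0 < (l : ℤ) * (t - c a / l - c b / l) := by rw [← h1]; omega
          have h4 : (l : ℤ) * (t - c a / l - c b / l) < l * 2 := by rw [← h1]; omega
          have h5 : 0 < t - c a / l - c b / l := pos_of_mul_pos_right h3 hl'.le
          have h6 : t - c a / l - c b / l < 2 := lt_of_mul_lt_mul_left h4 hl'.le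
          omega
        rw [ht, Int.mul_ediv_cancel_left _ hl'.ne']
        omega
      have h1 := P'.mul' ((M.wr c l).mul' (M.wr_gen c l hx) (M.wr_gen c l hy)) hs
      rw [mul_one] at h1
      convert h1 using 2
      rw [Prod.ext_iff]
      constructor
      · simp
      · exact h0
  one' := by
    rintro ⟨-, h⟩
    apply P'.one'
    rw [map_zero, Int.zero_ediv] at h
    exact h (dvd_zero _)
  prime' := by
    rintro a b x y hx hy ⟨-, h⟩
    by_cases ha : (l : ℤ) ∣ c a
    · by_cases hb : (l : ℤ) ∣ c b
      · have h1 : (l : ℤ) ∣ c (a + b) := by rw [map_add]; exact dvd_add ha hb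
        have h2 := h h1
        have h3 : ((a + b, c (a + b) / l) : ι × ℤ) = (a, c a / l) + (b, c b / l) := by
          rw [Prod.ext_iff]
          constructor
          · rfl
          · change c (a + b) / l = c a / l + c b / l
            rw [map_add, Int.add_ediv_of_dvd_left ha]
        rw [h3] at h2
        rcases P'.prime' (M.wr_gen c l hx) (M.wr_gen c l hy) h2 with h4 | h4
        · exact Or.inl ⟨hx, fun _ => h4⟩
        · exact Or.inr ⟨hy, fun _ => h4⟩
      · exact Or.inr ⟨hy, fun h' => absurd h' hb⟩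
    · exact Or.inl ⟨hx, fun h' => absurd h' ha⟩

end contr

end Pool.Agent.MP_b525bf_ag
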